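import Pool.Agent.H684R3.Smo.Done

set_option autoImplicit false

/-!
Linear recurrence sequences with one double root: almost all initial values.
-/

namespace Pool.Agent.Run7.h644.SK
open Pool.Agent.H884R2.Sko Pool.Agent.H684R3.Smo Pool.Agent.H692R2.USS Polynomial Finset

/-- Sieve by finitely many primes, for boxes with any centre. -/
theorem sieve_fixed {r : ℕ} (P : Finset ℕ) (hP : ∀ p ∈ P, p.Prime)
    (G : ∀ p : ℕ, Set (Fin r → ZMod p)) (κ : ℕ → ℝ)
    (hκ : ∀ p ∈ P, κ p * (p : ℝ) ^ r ≤ (Nat.card (G p) : ℝ)) (H : ℕ)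
    (hH : ∏ p ∈ P, p ≤ 2 * H + 1) (b : Fin r → ℤ) :
    (Nat.card {v : Fin r → ℤ // v ∈ bx b H ∧ ∀ p ∈ P, (fun i => (v i : ZMod p)) ∉ G p} : ℝ) ≤
      (2 * (H : ℝ) + 1) ^ r * ∏ p ∈ P, (1 - κ p) +
        (r : ℝ) * 2 ^ r * ((∏ p ∈ P, p : ℕ) : ℝ) * (2 * (H : ℝ) + 1) ^ (r - 1) := by
  classical
  let F : P → (Fin r → ℤ) → ℝ := fun p v => if (fun i => (v i : ZMod p.1)) ∈ G p.1 then 0 else 1
  have hper : ∀ p : P, Per p.1 (F p) := by
    intro p v w hvw
    have h1 : (fun i => (v i : ZMod p.1)) = fun i => (w i : ZMod p.1) := by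
      funext i
      have h2 := hvw i
      rw [← ZMod.intCast_zmod_eq_zero_iff_dvd] at h2
      rw [Int.cast_sub, sub_eq_zero] at h2
      exact h2
    change (if (fun i => (v i : ZMod p.1)) ∈ G p.1 then (0 : ℝ) else 1) =
      (if (fun i => (w i : ZMod p.1)) ∈ G p.1 then (0 : ℝ) else 1)
    rw [h1]
  have hF01 : ∀ p v, 0 ≤ F p v ∧ F p v ≤ 1 := by
    intro p v
    change 0 ≤ (if _ then (0 : ℝ) else 1) ∧ (if _ then (0 : ℝ) else 1) ≤ 1
    split_ifs <;> norm_num
  have hAv : ∀ p : P, 0 ≤ Av p.1 (F p) ∧ Av p.1 (F p) ≤ 1 - κ p.1 := by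
    intro p
    have hpr := hP p.1 p.2
    have : NeZero p.1 := ⟨hpr.ne_zero⟩
    have hpos : (0 : ℝ) < (p.1 : ℝ) ^ r := by
      have := hpr.pos
      positivity
    have h1 := sum_residues (ι := Fin r) p.1
      (fun z => (if z ∈ G p.1 then (0 : ℝ) else 1))
    have h2 : ∑ z ∈ Fintype.piFinset (fun _ : Fin r => Finset.Ico (0 : ℤ) p.1), F p z =
        ∑ z : Fin r → ZMod p.1, (if z ∈ G p.1 then (0 : ℝ) else 1) := h1
    have h3 : ∑ z : Fin r → ZMod p.1, (if z ∈ G p.1 then (0 : ℝ) else 1) =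
        (p.1 : ℝ) ^ r - (Nat.card (G p.1) : ℝ) := by
      have h4 : ∀ z : Fin r → ZMod p.1, (if z ∈ G p.1 then (0 : ℝ) else 1) =
          1 - (if z ∈ G p.1 then (1 : ℝ) else 0) := by
        intro z
        split_ifs <;> norm_num
      simp only [h4]
      rw [Finset.sum_sub_distrib, Finset.sum_const, Finset.card_univ, Fintype.card_fun,
        ZMod.card, Fintype.card_fin, Finset.sum_boole]
      have h5 : ((Finset.univ.filter fun z : Fin r → ZMod p.1 => z ∈ G p.1).card : ℝ) =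
          (Nat.card (G p.1) : ℝ) := by
        rw [Nat.card_eq_fintype_card, ← Set.toFinset_card]
        congr 2
        ext z
        simp
      rw [h5, nsmul_eq_mul, mul_one]
      push_cast
      ring
    have h6 : Av p.1 (F p) = ((p.1 : ℝ) ^ r - (Nat.card (G p.1) : ℝ)) / (p.1 : ℝ) ^ r := by
      unfold Av
      rw [h2, h3, Fintype.card_fin]
    have h7 : (Nat.card (G p.1) : ℝ) ≤ (p.1 : ℝ) ^ r := by
      have h1 : Nat.card (G p.1) ≤ Nat.card (Fin r → ZMod p.1) := Finite.card_subtype_le _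
      rw [Nat.card_fun, Nat.card_zmod, Nat.card_eq_fintype_card (α := Fin r),
        Fintype.card_fin] at h1
      exact_mod_cast h1
    rw [h6]
    constructor
    · exact div_nonneg (by linarith) hpos.le
    · rw [div_le_iff₀ hpos]
      have := hκ p.1 p.2
      linarith
  have hN : (∏ j : P, (j.1 : ℕ)) = ∏ p ∈ P, p := Finset.prod_coe_sort P (fun p => p)
  have hcrt := t2 (Fin r) P (fun p => p.1) F (fun p => (hP p.1 p.2).pos) (by
    intro i j hij
    exact (Nat.coprime_primes (hP i.1 i.2) (hP j.1 j.2)).2 (fun h => hij (Subtype.ext h))) hper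
  have hperN : Per (∏ p ∈ P, p) (fun v => ∏ j, F j v) := by
    intro v w hvw
    refine Finset.prod_congr rfl fun p _ => ?_
    refine hper p v w (fun i => dvd_trans ?_ (hvw i))
    exact_mod_cast Finset.dvd_prod_of_mem (fun p : ℕ => p) p.2
  have hprod01 : ∀ v, 0 ≤ ∏ j, F j v ∧ ∏ j, F j v ≤ 1 := by
    intro v
    exact ⟨Finset.prod_nonneg fun j _ => (hF01 j v).1,
      Finset.prod_le_one (fun j _ => (hF01 j v).1) (fun j _ => (hF01 j v).2)⟩
  have heq := t1 (Fin r) (∏ p ∈ P, p) (fun v => ∏ j, F j v)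
    (Finset.prod_pos fun p hp => (hP p hp).pos) hperN
    (fun v => abs_le.2 ⟨by linarith [(hprod01 v).1], (hprod01 v).2⟩) H b hH
  rw [hN] at hcrt
  rw [Fintype.card_fin] at heq
  have hAvle : Av (∏ p ∈ P, p) (fun v => ∏ j, F j v) ≤ ∏ p ∈ P, (1 - κ p) := by
    rw [hcrt, ← Finset.prod_coe_sort P (fun p => 1 - κ p)]
    exact Finset.prod_le_prod (fun j _ => (hAv j).1) (fun j _ => (hAv j).2)
  have hsum : (Nat.card {v : Fin r → ℤ // v ∈ bx b H ∧
      ∀ p ∈ P, (fun i => (v i : ZMod p)) ∉ G p} : ℝ) ≤ ∑ v ∈ bx b H, ∏ j, F j v := by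
    have hc : Nat.card {v : Fin r → ℤ // v ∈ bx b H ∧
        ∀ p ∈ P, (fun i => (v i : ZMod p)) ∉ G p} =
        ((bx b H).filter fun v => ∀ p ∈ P, (fun i => (v i : ZMod p)) ∉ G p).card := by
      have h1 : Nat.card {v : Fin r → ℤ // v ∈ bx b H ∧
          ∀ p ∈ P, (fun i => (v i : ZMod p)) ∉ G p} =
          Nat.card {v : Fin r → ℤ // v ∈ (bx b H).filter
            fun v => ∀ p ∈ P, (fun i => (v i : ZMod p)) ∉ G p} :=
        Nat.card_congr (Equiv.subtypeEquivRight fun v => by rw [Finset.mem_filter])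
      rw [h1, Nat.card_eq_fintype_card, Fintype.card_coe]
    rw [hc, Finset.card_eq_sum_ones, Nat.cast_sum]
    refine le_trans (Finset.sum_le_sum (fun v hv => ?_))
      (Finset.sum_le_sum_of_subset_of_nonneg (Finset.filter_subset _ _)
        (fun v _ _ => (hprod01 v).1))
    have hv2 := (Finset.mem_filter.1 hv).2
    rw [Nat.cast_one]
    apply le_of_eq
    symm
    refine Finset.prod_eq_one fun p _ => ?_
    change (if (fun i => (v i : ZMod p.1)) ∈ G p.1 then (0 : ℝ) else 1) = 1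
    rw [if_neg (hv2 p.1 p.2)]
  have h8 := (abs_le.1 heq).2
  have h9 : (2 * (H : ℝ) + 1) ^ r * Av (∏ p ∈ P, p) (fun v => ∏ j, F j v) ≤
      (2 * (H : ℝ) + 1) ^ r * ∏ p ∈ P, (1 - κ p) :=
    mul_le_mul_of_nonneg_left hAvle (by positivity)
  linarith

/-- The reciprocals of the primes that split a monic polynomial have a divergent sum. -/
theorem mass_split (g : ℤ[X]) (hg : g.Monic) (p₀ : ℕ) (B : ℝ) : ∃ P : Finset ℕ,
    (∀ p ∈ P, (p.Prime ∧ p₀ ≤ p) ∧ (g.map (Int.castRingHom (ZMod p))).Splits) ∧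
      B ≤ ∑ p ∈ P, (1 : ℝ) / p := by
  classical
  obtain ⟨K, hF, hNF, hK⟩ := splitField_one g hg
  obtain ⟨c, C, hc, h⟩ := @massK bt K hF hNF
  have htend : Filter.Tendsto (fun L : ℕ => c * Real.log L - C) Filter.atTop Filter.atTop := by
    apply Filter.tendsto_atTop_add_const_right
    exact Filter.Tendsto.const_mul_atTop hc
      (Real.tendsto_log_atTop.comp tendsto_natCast_atTop_atTop)
  obtain ⟨L, hL1, hL2⟩ := ((htend.eventually_gt_atTop (B + p₀)).and
    (Filter.eventually_ge_atTop 1)).exists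
  refine ⟨(Finset.range (2 ^ L)).filter (fun p => (p.Prime ∧ p₀ ≤ p) ∧
    (g.map (Int.castRingHom (ZMod p))).Splits), ?_, ?_⟩
  · intro p hp
    exact (Finset.mem_filter.1 hp).2
  · have h1 := h L hL2
    have h2 : ∑ p ∈ (Finset.range (2 ^ L)).filter (fun p => p.Prime ∧ HasDegOne K p),
        (1 : ℝ) / p ≤ ∑ p ∈ (Finset.range (2 ^ L)).filter (fun p => (p.Prime ∧ p₀ ≤ p) ∧
          (g.map (Int.castRingHom (ZMod p))).Splits), (1 : ℝ) / p + p₀ := by
      have hsub : (Finset.range (2 ^ L)).filter (fun p => p.Prime ∧ HasDegOne K p) ⊆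
          (Finset.range (2 ^ L)).filter (fun p => (p.Prime ∧ p₀ ≤ p) ∧
            (g.map (Int.castRingHom (ZMod p))).Splits) ∪ Finset.range p₀ := by
        intro p hp
        rw [Finset.mem_filter] at hp
        rw [Finset.mem_union, Finset.mem_filter]
        by_cases hpp : p₀ ≤ p
        · exact Or.inl ⟨hp.1, ⟨hp.2.1, hpp⟩, hK p hp.2.1 hp.2.2⟩
        · exact Or.inr (Finset.mem_range.2 (not_le.1 hpp))
      refine le_trans (Finset.sum_le_sum_of_subset_of_nonneg hsub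
        (fun p _ _ => by positivity)) ?_
      have h3 := Finset.sum_union_inter (s₁ := (Finset.range (2 ^ L)).filter
        (fun p => (p.Prime ∧ p₀ ≤ p) ∧ (g.map (Int.castRingHom (ZMod p))).Splits))
        (s₂ := Finset.range p₀) (f := fun p : ℕ => (1 : ℝ) / p)
      have h4 : (0 : ℝ) ≤ ∑ p ∈ (Finset.range (2 ^ L)).filter
        (fun p => (p.Prime ∧ p₀ ≤ p) ∧ (g.map (Int.castRingHom (ZMod p))).Splits) ∩
          Finset.range p₀, (1 : ℝ) / p := Finset.sum_nonneg (fun p _ => by positivity)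
      have h5 : ∑ p ∈ Finset.range p₀, (1 : ℝ) / p ≤ p₀ := by
        calc ∑ p ∈ Finset.range p₀, (1 : ℝ) / p ≤ ∑ p ∈ Finset.range p₀, (1 : ℝ) := by
              refine Finset.sum_le_sum fun p _ => ?_
              rcases Nat.eq_zero_or_pos p with h | h
              · subst h; simp
              · have : (1 : ℝ) ≤ p := by exact_mod_cast h
                rw [div_le_one (by linarith)]
                exact this
          _ = p₀ := by simp
      linarith
    linarith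

theorem ann_chi {R : Type*} [CommRing R] [Nontrivial R] {d : ℕ} (c : Fin d → R) (w : ℕ → R) :
    Ann (chi c) w ↔ ∀ n, w (n + d) = ∑ i : Fin d, c i * w (n + i) := by
  rw [ann_iff (N := d + 1) (by rw [chi_natDegree]; omega)]
  refine forall_congr' fun n => ?_
  have h1 : (chi c).coeff d = 1 := by
    have := (chi_monic c).coeff_natDegree
    rwa [chi_natDegree] at this
  rw [Finset.sum_range_succ, h1, one_mul,
    ← Fin.sum_univ_eq_sum_range (fun i => (chi c).coeff i * w (n + i))]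
  have h2 : ∑ i : Fin d, (chi c).coeff i * w (n + i) = - ∑ i : Fin d, c i * w (n + i) := by
    rw [← Finset.sum_neg_distrib]
    refine Finset.sum_congr rfl fun i _ => ?_
    rw [chi_coeff]; ring
  rw [h2]
  constructor
  · intro h
    linear_combination h
  · intro h
    linear_combination h

/-- the coefficients of the recurrence of a monic polynomial -/
theorem exists_chi {R : Type*} [CommRing R] (g : R[X]) (hg : g.Monic) (e : ℕ)
    (he : g.natDegree = e) : ∃ c : Fin e → R, chi c = g := by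
  refine ⟨fun i => - g.coeff i, ?_⟩
  have h := hg.as_sum
  unfold chi
  rw [he] at h
  conv_rhs => rw [h]
  rw [sub_eq_add_neg, ← Finset.sum_neg_distrib,
    ← Fin.sum_univ_eq_sum_range (fun i => C (g.coeff i) * X ^ i)]
  congr 1
  refine Finset.sum_congr rfl fun i _ => ?_
  rw [C_neg]; ring

open Classical in
/-- One factor `X - ρ` more than a squarefree polynomial: local count. -/
theorem local_double {e : ℕ} (he : 1 ≤ e) (c : Fin (e + 1) → ℤ) (ρ : ℤ) (g : ℤ[X])
    (hfac : chi c = (X - C ρ) * g) (h0 : (chi c).coeff 0 ≠ 0)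
    (hsq : Squarefree (g.map (Int.castRingHom ℚ))) :
    ∃ (G : ℤ[X]) (p₀ : ℕ), G.Monic ∧ ∀ p : ℕ, p.Prime → p₀ ≤ p →
      (G.map (Int.castRingHom (ZMod p))).Splits →
      (1 / (2 * p) : ℝ) * (p : ℝ) ^ (e + 1) ≤
        (Nat.card {a : Fin (e + 1) → ZMod p // GoodP (fun i => (c i : ZMod p)) a} : ℝ) := by
  have hgm : g.Monic := by
    have h1 : ((X - C ρ) * g).Monic := by rw [← hfac]; exact chi_monic c
    exact Monic.of_mul_monic_left (monic_X_sub_C ρ) h1
  have hdeg : g.natDegree = e := by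
    have h1 := congrArg natDegree hfac
    rw [chi_natDegree, (monic_X_sub_C ρ).natDegree_mul hgm, natDegree_X_sub_C] at h1
    omega
  obtain ⟨cg, hcg⟩ := exists_chi g hgm e hdeg
  have hg0 : (chi cg).coeff 0 ≠ 0 := by
    intro h
    apply h0
    rw [hfac, mul_coeff_zero, ← hcg, h, mul_zero]
  obtain ⟨G, p₀, hG, hgood⟩ := t7 e cg he hg0 (by rw [hcg]; exact hsq)
  refine ⟨G, p₀, hG, fun p hp hpp hsp => ?_⟩
  have : Fact p.Prime := ⟨hp⟩
  have h1 := hgood p hp hpp hsp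
  rw [Fintype.card_fin] at h1
  have hpR : (0 : ℝ) < p := by exact_mod_cast hp.pos
  have h2 : (1 / (2 * p) : ℝ) * (p : ℝ) ^ (e + 1) = 1 / 2 * (p : ℝ) ^ e := by
    rw [pow_succ]
    field_simp
  rw [h2]
  refine h1.trans ?_
  norm_cast
  -- the injection
  have hseq : ∀ (y : Fin e → ZMod p) (n : ℕ),
      seq (fun i => (c i : ZMod p)) (fun i : Fin (e + 1) => seq (fun i => (cg i : ZMod p)) y i) n =
        seq (fun i => (cg i : ZMod p)) y n := by
    intro y n
    symm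
    refine eq_seq (fun i => (c i : ZMod p)) (fun i : Fin (e + 1) =>
      seq (fun i => (cg i : ZMod p)) y i) (fun n => seq (fun i => (cg i : ZMod p)) y n) ?_
      (fun i => rfl) n
    have h3 : Ann (chi (fun i => (cg i : ZMod p))) (fun n => seq (fun i => (cg i : ZMod p)) y n) :=
      (ann_chi _ _).2 (fun n => seq_sol _ _ n)
    have h4 : chi (fun i => (c i : ZMod p)) =
        (X - C (ρ : ZMod p)) * chi (fun i => (cg i : ZMod p)) := by
      have h5 : (chi c).map (Int.castRingHom (ZMod p)) = chi (fun i => (c i : ZMod p)) := by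
        rw [chi_map]; rfl
      have h6 : (chi cg).map (Int.castRingHom (ZMod p)) = chi (fun i => (cg i : ZMod p)) := by
        rw [chi_map]; rfl
      rw [← h5, ← h6, hfac, hcg, Polynomial.map_mul, Polynomial.map_sub, map_X, map_C]
      simp
    have h7 := h3.mul_left (X - C (ρ : ZMod p))
    rw [← h4] at h7
    exact (ann_chi _ _).1 h7
  refine Nat.card_le_card_of_injective (fun y : {y : Fin e → ZMod p //
    GoodP (fun i => (cg i : ZMod p)) y} => (⟨fun i : Fin (e + 1) =>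
      seq (fun i => (cg i : ZMod p)) y.1 i, ?_⟩ : {a : Fin (e + 1) → ZMod p //
        GoodP (fun i => (c i : ZMod p)) a})) ?_
  · obtain ⟨h3, h4⟩ := y.2
    exact ⟨fun n => by rw [hseq, hseq]; exact h3 n, fun n => by rw [hseq]; exact h4 n⟩
  · intro y y' h
    apply Subtype.ext
    funext i
    have h5 := congrFun (congrArg Subtype.val h) i.castSucc
    simp only [Fin.val_castSucc, seq_init] at h5
    exact h5

/-- **One double root.** -/
theorem one_double {d : ℕ} (hd : 2 ≤ d) (c : Fin d → ℤ) (hc : c ⟨d - 1, by omega⟩ ≠ 0) (ρ : ℤ)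
    (g : ℤ[X]) (hfac : charPoly c = (X - C ρ) * g)
    (hsq : Squarefree (g.map (Int.castRingHom ℚ))) (ε : ℝ) (hε : 0 < ε) :
    ∃ z H₀ : ℕ, ∀ H : ℕ, H₀ ≤ H → ∀ b : Fin d → ℤ,
      ∃ E ⊆ box b H, (E.card : ℝ) ≤ ε * (2 * (H : ℝ) + 1) ^ d ∧
        ∀ a ∈ box b H, a ∉ E → ∃ p : ℕ, p.Prime ∧ p ≤ z ∧ ∀ u, IsSeq c a u →
          (∀ n, (p : ℤ) ∣ u (n + (p - 1) / 2) - u n) ∧ ∀ n, ¬ (p : ℤ) ∣ u n := by
  classical
  obtain ⟨e, rfl⟩ : ∃ e, d = e + 1 := ⟨d - 1, by omega⟩
  rw [charPoly_eq] at hfac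
  have h0 : (chi (fun i => c (Fin.rev i))).coeff 0 ≠ 0 := by
    have := chi_coeff (fun i => c (Fin.rev i)) ⟨0, by omega⟩
    simp only at this
    rw [this, neg_ne_zero]
    have e1 : Fin.rev (⟨0, by omega⟩ : Fin (e + 1)) = ⟨e + 1 - 1, by omega⟩ := by
      apply Fin.ext
      rw [Fin.val_rev]
    rw [e1]
    exact hc
  obtain ⟨G, p₀, hG, hgood⟩ := local_double (by omega) (fun i => c (Fin.rev i)) ρ g hfac h0 hsq
  -- choose the primes
  obtain ⟨P, hP, hmass⟩ := mass_split G hG p₀ (2 * Real.log (2 / ε))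
  set κ : ℕ → ℝ := fun p => 1 / (2 * p) with hκ
  set N : ℕ := ∏ p ∈ P, p with hN
  have hprod : ∏ p ∈ P, (1 - κ p) ≤ ε / 2 := by
    have h1 : ∏ p ∈ P, (1 - κ p) ≤ ∏ p ∈ P, Real.exp (-(κ p)) := by
      refine Finset.prod_le_prod (fun p hp => ?_) (fun p _ => Real.one_sub_le_exp_neg _)
      have h2 : (1 : ℝ) ≤ p := by exact_mod_cast (hP p hp).1.1.one_le
      have h3 : κ p ≤ 1 := by
        rw [hκ]
        simp only
        rw [div_le_one (by linarith)]
        linarith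
      linarith
    refine h1.trans ?_
    rw [← Real.exp_sum, Finset.sum_neg_distrib]
    have h4 : Real.log (2 / ε) ≤ ∑ p ∈ P, κ p := by
      have h5 : ∑ p ∈ P, κ p = (∑ p ∈ P, (1 : ℝ) / p) / 2 := by
        rw [Finset.sum_div]
        refine Finset.sum_congr rfl fun p _ => ?_
        rw [hκ]
        simp only
        rw [div_div, mul_comm]
      rw [h5]
      linarith
    calc Real.exp (-∑ p ∈ P, κ p) ≤ Real.exp (-Real.log (2 / ε)) :=
          Real.exp_le_exp.2 (by linarith)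
      _ = ε / 2 := by
          rw [Real.exp_neg, Real.exp_log (by positivity), inv_div]
  refine ⟨P.sup id, N + ⌈2 * (((e + 1 : ℕ) : ℝ) * 2 ^ (e + 1) * N) / ε⌉₊, fun H hH b => ?_⟩
  have hHN : N ≤ 2 * H + 1 := by omega
  have hH2 : 2 * (((e + 1 : ℕ) : ℝ) * 2 ^ (e + 1) * N) / ε ≤ H := by
    refine (Nat.le_ceil _).trans ?_
    exact_mod_cast (by omega : ⌈2 * (((e + 1 : ℕ) : ℝ) * 2 ^ (e + 1) * N) / ε⌉₊ ≤ H)
  have hmain := sieve_fixed P (fun p hp => (hP p hp).1.1)
    (fun p => {a : Fin (e + 1) → ZMod p | GoodP (fun i => ((c (Fin.rev i) : ℤ) : ZMod p)) a}) κ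
    (fun p hp => hgood p (hP p hp).1.1 (hP p hp).1.2 (hP p hp).2) H hHN b
  refine ⟨(box b H).filter (fun a => ¬ ∃ p : ℕ, p.Prime ∧ p ≤ P.sup id ∧ ∀ u, IsSeq c a u →
          (∀ n, (p : ℤ) ∣ u (n + (p - 1) / 2) - u n) ∧ ∀ n, ¬ (p : ℤ) ∣ u n),
    Finset.filter_subset _ _, ?_, ?_⟩
  · have h1 : (((box b H).filter (fun a => ¬ ∃ p : ℕ, p.Prime ∧ p ≤ P.sup id ∧
        ∀ u, IsSeq c a u → (∀ n, (p : ℤ) ∣ u (n + (p - 1) / 2) - u n) ∧
          ∀ n, ¬ (p : ℤ) ∣ u n)).card : ℝ) ≤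
        (Nat.card {v : Fin (e + 1) → ℤ // v ∈ bx b H ∧ ∀ p ∈ P, (fun i => (v i : ZMod p)) ∉
          {a : Fin (e + 1) → ZMod p | GoodP (fun i => ((c (Fin.rev i) : ℤ) : ZMod p)) a}} :
            ℝ) := by
      norm_cast
      refine card_le_sub _ _ (finite_sub _ _ _) (fun a : Fin (e + 1) → ℤ => a)
        (fun _ _ h => h) ?_
      intro a h
      rw [Finset.mem_filter] at h
      obtain ⟨ha, hcert⟩ := h
      refine ⟨ha, ?_⟩
      intro p hp hG'
      exact hcert ⟨p, (hP p hp).1.1, Finset.le_sup (f := id) hp,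
        fun u hu => good_cert c a p hG' u hu⟩
    refine h1.trans (hmain.trans ?_)
    have hS : (0 : ℝ) < 2 * (H : ℝ) + 1 := by positivity
    have h2 : (2 * (H : ℝ) + 1) ^ (e + 1) * ∏ p ∈ P, (1 - κ p) ≤
        (2 * (H : ℝ) + 1) ^ (e + 1) * (ε / 2) :=
      mul_le_mul_of_nonneg_left hprod (by positivity)
    have h3 : (((e + 1 : ℕ) : ℝ)) * 2 ^ (e + 1) * (N : ℝ) ≤ (ε / 2) * (2 * (H : ℝ) + 1) := by
      rw [div_le_iff₀ hε] at hH2
      nlinarith
    have h4 : (((e + 1 : ℕ) : ℝ)) * 2 ^ (e + 1) * (N : ℝ) * (2 * (H : ℝ) + 1) ^ (e + 1 - 1) ≤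
        (ε / 2) * (2 * (H : ℝ) + 1) ^ (e + 1) := by
      rw [Nat.add_sub_cancel]
      calc (((e + 1 : ℕ) : ℝ)) * 2 ^ (e + 1) * (N : ℝ) * (2 * (H : ℝ) + 1) ^ e
          ≤ ((ε / 2) * (2 * (H : ℝ) + 1)) * (2 * (H : ℝ) + 1) ^ e :=
            mul_le_mul_of_nonneg_right h3 (by positivity)
        _ = (ε / 2) * (2 * (H : ℝ) + 1) ^ (e + 1) := by rw [pow_succ]; ring
    linarith
  · intro a ha haE
    rw [Finset.mem_filter, not_and, not_not] at haE
    exact haE ha

end Pool.Agent.Run7.h644.SK
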