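import Pool.Agent.Run7.h644.SK.Local

set_option autoImplicit false

/-!
Linear recurrence sequences whose initial values are polynomials in parameters: almost all
parameters.
-/

namespace Pool.Agent.Run7.h644.SK
open Pool.Agent.H884R2.Sko Pool.Agent.H684R3.Smo Pool.Agent.H692R2.USS Polynomial Finset

/-- Polynomially many primes split a given monic polynomial. -/
theorem many_split (g : ℤ[X]) (hg : g.Monic) (p₀ : ℕ) :
    ∃ θ : ℝ, 0 < θ ∧ ∃ y₁ : ℕ, ∀ y : ℕ, y₁ ≤ y → (y : ℝ) ^ θ ≤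
      (Nat.card {p : ℕ // ((p.Prime ∧ p₀ ≤ p) ∧ (g.map (Int.castRingHom (ZMod p))).Splits) ∧
        p ≤ y} : ℝ) := by
  obtain ⟨K, hF, hNF, hK⟩ := splitField_one g hg
  obtain ⟨θ, hθ, y₀, hsup⟩ := @t8 K hF hNF
  set P : ℕ → Prop := fun p => (p.Prime ∧ p₀ ≤ p) ∧ (g.map (Int.castRingHom (ZMod p))).Splits
    with hP
  have hev : ∀ᶠ y : ℕ in Filter.atTop, (p₀ : ℝ) + 1 ≤ (y : ℝ) ^ (θ / 2) := by
    have : Filter.Tendsto (fun y : ℕ => (y : ℝ) ^ (θ / 2)) Filter.atTop Filter.atTop :=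
      (tendsto_rpow_atTop (by positivity)).comp tendsto_natCast_atTop_atTop
    exact this.eventually_ge_atTop _
  obtain ⟨y₂, hy₂⟩ := Filter.eventually_atTop.1 hev
  refine ⟨θ / 2, by positivity, max y₀ y₂, fun y hy => ?_⟩
  have h1 := hsup y ((le_max_left _ _).trans hy)
  have h2 := hy₂ y ((le_max_right _ _).trans hy)
  have hfinP : Finite {p : ℕ // P p ∧ p ≤ y} :=
    Set.Finite.subset (Set.finite_Iic y) (fun p hp => hp.2)
  have h3 : Nat.card {p : ℕ // (p.Prime ∧ @HasDegOne K hF hNF p) ∧ p ≤ y} ≤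
      Nat.card {p : ℕ // P p ∧ p ≤ y} + p₀ := by
    have e : Nat.card ({p : ℕ // P p ∧ p ≤ y} ⊕ Fin p₀) =
        Nat.card {p : ℕ // P p ∧ p ≤ y} + p₀ := by
      rw [Nat.card_sum, Nat.card_eq_fintype_card (α := Fin p₀), Fintype.card_fin]
    rw [← e]
    apply Nat.card_le_card_of_injective (fun p : {p : ℕ // (p.Prime ∧ @HasDegOne K hF hNF p) ∧
      p ≤ y} => if h : p.1 < p₀ then Sum.inr (⟨p.1, h⟩ : Fin p₀) else
        Sum.inl (⟨p.1, ⟨⟨p.2.1.1, not_lt.1 h⟩, hK p.1 p.2.1.1 p.2.1.2⟩, p.2.2⟩ :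
          {p : ℕ // P p ∧ p ≤ y}))
    intro x x' h
    apply Subtype.ext
    simp only at h
    split_ifs at h with h4 h5 h5
    · simpa using h
    · simpa using h
  have h4 : ((Nat.card {p : ℕ // (p.Prime ∧ @HasDegOne K hF hNF p) ∧ p ≤ y} : ℕ) : ℝ) ≤
      (Nat.card {p : ℕ // P p ∧ p ≤ y} : ℝ) + p₀ := by exact_mod_cast h3
  have h5 : (y : ℝ) ^ θ = (y : ℝ) ^ (θ / 2) * (y : ℝ) ^ (θ / 2) := by
    rcases Nat.eq_zero_or_pos y with rfl | hy0
    · rw [Nat.cast_zero, Real.zero_rpow hθ.ne', Real.zero_rpow (by positivity)]; ring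
    · rw [← Real.rpow_add (by exact_mod_cast hy0)]; congr 1; ring
  have h6 : (0 : ℝ) ≤ (p₀ : ℝ) := by positivity
  nlinarith

/-- the sequence of polynomials with coefficients `c` and initial values `a` -/
def IsSeqP {d r : ℕ} (c : Fin d → ℤ) (a : Fin d → MvPolynomial (Fin r) ℤ)
    (W : ℕ → MvPolynomial (Fin r) ℤ) : Prop :=
  (∀ i : Fin d, W i = a i) ∧
    ∀ n, W (n + d) = ∑ i : Fin d, MvPolynomial.C (c i) * W (n + d - 1 - i)

theorem isSeqP_U {d r : ℕ} (c : Fin d → ℤ) (a : Fin d → MvPolynomial (Fin r) ℤ) :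
    IsSeqP c a (U (fun i => c (Fin.rev i)) a) := by
  refine ⟨fun i => seq_init _ _ i, fun n => ?_⟩
  have h1 : U (fun i => c (Fin.rev i)) a (n + d) =
      ∑ i : Fin d, MvPolynomial.C (c (Fin.rev i)) * U (fun i => c (Fin.rev i)) a (n + i) :=
    seq_sol _ _ n
  rw [h1, ← sum_rev]
  refine Finset.sum_congr rfl fun i _ => ?_
  rw [Fin.rev_rev, Fin.val_rev]
  congr 2
  have := i.2
  omega

theorem isSeqP_eq {d r : ℕ} (c : Fin d → ℤ) (a : Fin d → MvPolynomial (Fin r) ℤ)
    (W : ℕ → MvPolynomial (Fin r) ℤ) (hW : IsSeqP c a W) (n : ℕ) :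
    W n = U (fun i => c (Fin.rev i)) a n := by
  refine eq_seq (fun i => MvPolynomial.C (c (Fin.rev i))) a W (fun n => ?_) hW.1 n
  rw [hW.2 n, ← sum_rev]
  refine Finset.sum_congr rfl fun i _ => ?_
  rw [Fin.val_rev]
  congr 2
  have := i.2
  omega

/-- Almost all parameters have a certificate: in every box of parameters `x` of side `2 H + 1`, for
all but a proportion `H ^ (-δ)` of the `x` there is a prime `p ≤ (log H) ^ A` such that the
sequence `u` with coefficients `c` and initial values `a_i(x)` has period `p - 1` modulo `p` and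
no term congruent to `F(x)` modulo `p`. -/
def Certified {d r : ℕ} (c : Fin d → ℤ) (a : Fin d → MvPolynomial (Fin r) ℤ)
    (F : MvPolynomial (Fin r) ℤ) : Prop :=
  ∃ A δ : ℝ, 0 < A ∧ 0 < δ ∧ ∃ H₀ : ℕ, ∀ H : ℕ, H₀ ≤ H → ∀ b : Fin r → ℤ,
    ∃ E ⊆ box b H, (E.card : ℝ) ≤ (2 * (H : ℝ) + 1) ^ r * (H : ℝ) ^ (-δ) ∧
      ∀ x ∈ box b H, x ∉ E → ∃ p : ℕ, p.Prime ∧ (p : ℝ) ≤ Real.log H ^ A ∧
        ∀ u, IsSeq c (fun i => MvPolynomial.eval x (a i)) u →
          (∀ n, (p : ℤ) ∣ u (n + (p - 1)) - u n) ∧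
          ∀ n, ¬ (p : ℤ) ∣ u n - MvPolynomial.eval x F

theorem good_cert' {d r : ℕ} (c : Fin d → ℤ) (a : Fin d → MvPolynomial (Fin r) ℤ)
    (F : MvPolynomial (Fin r) ℤ) (x : Fin r → ℤ) (p : ℕ)
    (h : GoodX p (fun i => c (Fin.rev i)) a F (fun i => (x i : ZMod p)))
    (u : ℕ → ℤ) (hu : IsSeq c (fun i => MvPolynomial.eval x (a i)) u) :
    (∀ n, (p : ℤ) ∣ u (n + (p - 1)) - u n) ∧
      ∀ n, ¬ (p : ℤ) ∣ u n - MvPolynomial.eval x F := by
  have key : ∀ n, ((u n : ℤ) : ZMod p) =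
      seq (fun i => ((c (Fin.rev i) : ℤ) : ZMod p))
        (fun i => val p (fun i => (x i : ZMod p)) (a i)) n := by
    intro n
    rw [(isSeq_iff c _ u).1 hu n]
    have h2 := Pool.Agent.H884R2.Sko.map_seq (Int.castRingHom (ZMod p))
      (fun i => c (Fin.rev i)) (fun i => MvPolynomial.eval x (a i)) n
    rw [eq_intCast] at h2
    rw [h2]
    congr 1
    funext i
    rw [val_int]
    rfl
  constructor
  · intro n
    rw [← ZMod.intCast_zmod_eq_zero_iff_dvd, Int.cast_sub, key, key, h.1 n, sub_self]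
  · intro n hn
    rw [← ZMod.intCast_zmod_eq_zero_iff_dvd, Int.cast_sub, key, ← val_int, sub_eq_zero] at hn
    exact h.2 n hn

open Classical in
theorem main_general {d r : ℕ} (hd : 1 ≤ d) (c : Fin d → ℤ)
    (hc : c ⟨d - 1, by omega⟩ ≠ 0) (hsq : Squarefree ((charPoly c).map (Int.castRingHom ℚ)))
    (a : Fin d → MvPolynomial (Fin r) ℤ) (F : MvPolynomial (Fin r) ℤ) (p₀ : ℕ)
    (hC : ∀ W, IsSeqP c a W → ∀ p : ℕ, p.Prime → p₀ ≤ p →
      ∀ n, ¬ MvPolynomial.C (p : ℤ) ∣ W n - F) : Certified c a F := by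
  rw [charPoly_eq] at hsq
  have h0 : (chi (fun i => c (Fin.rev i))).coeff 0 ≠ 0 := by
    have := chi_coeff (fun i => c (Fin.rev i)) ⟨0, by omega⟩
    simp only at this
    rw [this, neg_ne_zero]
    have e : Fin.rev (⟨0, by omega⟩ : Fin d) = ⟨d - 1, by omega⟩ := by
      apply Fin.ext
      rw [Fin.val_rev]
    rw [e]
    exact hc
  obtain ⟨g, p₁, hg, hgood⟩ := local_count (fun i => c (Fin.rev i)) h0 hsq a F p₀ (by
    intro p hp hpp n hred
    refine hC _ (isSeqP_U c a) p hp hpp n ?_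
    rw [MvPolynomial.C_dvd_iff_zmod]
    exact hred)
  obtain ⟨θ, hθ, hsup⟩ := many_split g hg p₁
  set A : ℝ := 2 / θ with hA
  have hA0 : 0 < A := by positivity
  have hAθ : 1 < A * θ := by
    have : A * θ = 2 := by rw [hA]; field_simp
    rw [this]; norm_num
  obtain ⟨δ, hδ, H₀, hmain⟩ := h5 (Fin r)
    (fun p => (p.Prime ∧ p₁ ≤ p) ∧ (g.map (Int.castRingHom (ZMod p))).Splits)
    (fun p => {x | GoodX p (fun i => c (Fin.rev i)) a F x}) (1 / 2) θ A
    (by norm_num) hθ hA0 hAθ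
    (fun p hp => ⟨hp.1.1, hgood p hp.1.1 hp.1.2 hp.2⟩) hsup
  refine ⟨A, δ, hA0, hδ, H₀, fun H hH b => ?_⟩
  refine ⟨(box b H).filter (fun x => ¬ ∃ p : ℕ, p.Prime ∧ (p : ℝ) ≤ Real.log H ^ A ∧
        ∀ u, IsSeq c (fun i => MvPolynomial.eval x (a i)) u →
          (∀ n, (p : ℤ) ∣ u (n + (p - 1)) - u n) ∧
          ∀ n, ¬ (p : ℤ) ∣ u n - MvPolynomial.eval x F), Finset.filter_subset _ _, ?_, ?_⟩
  · have h1 := hmain H hH b
    rw [Fintype.card_fin] at h1
    refine le_trans ?_ h1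
    norm_cast
    refine card_le_sub _ _ (finite_sub _ _ _) (fun x : Fin r → ℤ => x) (fun _ _ h => h) ?_
    intro x h
    rw [Finset.mem_filter] at h
    obtain ⟨hx, hcert⟩ := h
    refine ⟨hx, ?_⟩
    intro p hp hpA hG
    exact hcert ⟨p, hp.1.1, hpA, fun u hu => good_cert' c a F x p hG u hu⟩
  · intro x hx hxE
    rw [Finset.mem_filter, not_and, not_not] at hxE
    exact hxE hx

/-! ### Membership -/

theorem membership {d r : ℕ} (hd : 1 ≤ d) (c : Fin d → ℤ)
    (hc : c ⟨d - 1, by omega⟩ ≠ 0) (hsq : Squarefree ((charPoly c).map (Int.castRingHom ℚ)))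
    (α : Fin d → ℤ) (F : MvPolynomial (Fin r) ℤ) (hF : ∀ z : ℤ, F ≠ MvPolynomial.C z) :
    Certified c (fun i => MvPolynomial.C (α i)) F := by
  obtain ⟨m, hm0, hm⟩ : ∃ m : Fin r →₀ ℕ, m ≠ 0 ∧ F.coeff m ≠ 0 := by
    by_contra hcon
    push Not at hcon
    apply hF (F.coeff 0)
    ext m
    rw [MvPolynomial.coeff_C]
    by_cases h : 0 = m
    · rw [if_pos h, h]
    · rw [if_neg h]
      exact hcon m (fun h' => h h'.symm)
  refine main_general hd c hc hsq _ F ((F.coeff m).natAbs + 1) ?_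
  intro W hW p hp hpp n hdvd
  have h1 : W n = MvPolynomial.C (seq (fun i => c (Fin.rev i)) α n) := by
    rw [isSeqP_eq c _ W hW n]
    unfold U
    exact (Pool.Agent.H884R2.Sko.map_seq (MvPolynomial.C (σ := Fin r))
      (fun i => c (Fin.rev i)) α n).symm
  rw [MvPolynomial.C_dvd_iff_dvd_coeff] at hdvd
  have h2 := hdvd m
  rw [h1, MvPolynomial.coeff_sub, MvPolynomial.coeff_C, if_neg (fun h => hm0 h.symm), zero_sub,
    dvd_neg] at h2
  have h3 := Int.natAbs_dvd_natAbs.2 h2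
  rw [Int.natAbs_natCast] at h3
  have h4 := Nat.le_of_dvd (Int.natAbs_pos.2 hm) h3
  omega

/-! ### Linearly independent initial values -/

/-- Over a field, if the last coefficient is not zero, windows are arbitrary. -/
theorem window {K : Type*} [Field K] {d : ℕ} (c : Fin (d + 1) → K) (h0 : c 0 ≠ 0) (n : ℕ) :
    ∀ t : Fin (d + 1) → K, ∃ v, ∀ i : Fin (d + 1), seq c v (n + i) = t i := by
  induction n with
  | zero =>
    intro t
    refine ⟨t, fun i => ?_⟩
    rw [zero_add]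
    exact seq_init c t i
  | succ n ih =>
    intro t
    obtain ⟨v, hv⟩ := ih (Fin.cons ((t (Fin.last d) - ∑ i : Fin d, c i.succ * t i.castSucc) / c 0)
      (fun i : Fin d => t i.castSucc))
    refine ⟨v, fun i => ?_⟩
    refine Fin.lastCases ?_ (fun j => ?_) i
    · have h1 : n + 1 + ((Fin.last d : Fin (d + 1)) : ℕ) = n + (d + 1) := by
        rw [Fin.val_last]; ring
      rw [h1, seq_sol, Fin.sum_univ_succ, hv 0, Fin.cons_zero]
      have h2 : ∀ j : Fin d, seq c v (n + ((j.succ : Fin (d + 1)) : ℕ)) = t j.castSucc := by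
        intro j
        rw [hv j.succ, Fin.cons_succ]
      simp only [h2]
      field_simp
      ring
    · have h1 : n + 1 + ((j.castSucc : Fin (d + 1)) : ℕ) = n + ((j.succ : Fin (d + 1)) : ℕ) := by
        rw [Fin.val_castSucc, Fin.val_succ]; ring
      rw [h1, hv j.succ, Fin.cons_succ]

/-- the basis solutions -/
theorem U_eq_sum {d r : ℕ} (c : Fin d → ℤ) (a : Fin d → MvPolynomial (Fin r) ℤ) (n : ℕ) :
    U c a n = ∑ j, MvPolynomial.C (seq c (Pi.single j 1) n) * a j := by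
  symm
  refine eq_seq (fun i => MvPolynomial.C (c i)) a
    (fun n => ∑ j, MvPolynomial.C (seq c (Pi.single j 1) n) * a j) (fun n => ?_) (fun i => ?_) n
  · simp only [seq_sol, map_sum, map_mul, Finset.sum_mul, Finset.mul_sum]
    rw [Finset.sum_comm]
    refine Finset.sum_congr rfl fun i _ => Finset.sum_congr rfl fun j _ => ?_
    ring
  · simp only [seq_init]
    rw [Finset.sum_eq_single i]
    · simp
    · intro j _ hj
      rw [Pi.single_apply, if_neg (Ne.symm hj)]
      simp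
    · intro h; exact absurd (Finset.mem_univ _) h

/-- The basis solutions have no common prime factor that does not divide the last coefficient. -/
theorem basis_coprime {d : ℕ} (hd : 1 ≤ d) (c : Fin d → ℤ) (p : ℕ) (hp : p.Prime)
    (h0 : ¬ (p : ℤ) ∣ c ⟨0, by omega⟩) (n : ℕ) :
    ∃ j, ¬ (p : ℤ) ∣ seq c (Pi.single j 1) n := by
  have : Fact p.Prime := ⟨hp⟩
  obtain ⟨e, rfl⟩ : ∃ e, d = e + 1 := ⟨d - 1, by omega⟩
  by_contra hcon
  push Not at hcon
  have hc0 : ((c 0 : ℤ) : ZMod p) ≠ 0 := by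
    rw [Ne, ZMod.intCast_zmod_eq_zero_iff_dvd]
    exact h0
  obtain ⟨v, hv⟩ := window (fun i => ((c i : ℤ) : ZMod p)) hc0 n (fun _ => 1)
  have h1 := hv 0
  simp only [Fin.val_zero, add_zero] at h1
  have h2 : seq (fun i => ((c i : ℤ) : ZMod p)) v n = ev (fun i => ((c i : ℤ) : ZMod p)) n v := rfl
  rw [h2, LinearMap.pi_apply_eq_sum_univ] at h1
  have h3 : ∀ j, ev (fun i => ((c i : ℤ) : ZMod p)) n (fun k => if j = k then 1 else 0) = 0 := by
    intro j
    have h4 : (fun k => if j = k then (1 : ZMod p) else 0) =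
        fun k => ((Pi.single j (1 : ℤ) : Fin (e + 1) → ℤ) k : ZMod p) := by
      funext k
      rw [Pi.single_apply]
      by_cases h : j = k
      · simp [h]
      · rw [if_neg h, if_neg (fun h' => h h'.symm)]
        simp
    rw [h4]
    have h5 := Pool.Agent.H884R2.Sko.map_seq (Int.castRingHom (ZMod p)) c (Pi.single j 1) n
    have h6 : ev (fun i => ((c i : ℤ) : ZMod p)) n
        (fun k => ((Pi.single j (1 : ℤ) : Fin (e + 1) → ℤ) k : ZMod p)) =
        (Int.castRingHom (ZMod p)) (seq c (Pi.single j 1) n) := h5.symm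
    rw [h6, eq_intCast, ZMod.intCast_zmod_eq_zero_iff_dvd]
    exact hcon j
  rw [Finset.sum_eq_zero (fun j _ => by rw [h3 j, smul_zero])] at h1
  exact zero_ne_one h1

/-- Dividing a combination of linearly independent polynomials. -/
theorem indep_dvd {d r : ℕ} (a : Fin d → MvPolynomial (Fin r) ℤ) (ha : LinearIndependent ℤ a) :
    ∃ N : ℕ, 0 < N ∧ ∀ (p : ℕ) (e : Fin d → ℤ),
      MvPolynomial.C (p : ℤ) ∣ ∑ j, MvPolynomial.C (e j) * a j → ∀ j, (p : ℤ) ∣ N * e j := by
  classical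
  set T : Finset (Fin r →₀ ℕ) := univ.biUnion (fun i => (a i).support) with hT
  let L : (Fin d → ℚ) →ₗ[ℚ] (T → ℚ) :=
    { toFun := fun g m => ∑ i, g i * (((a i).coeff m.1 : ℤ) : ℚ)
      map_add' := by
        intro g h
        funext m
        simp only [Pi.add_apply]
        rw [← Finset.sum_add_distrib]
        exact Finset.sum_congr rfl fun i _ => by ring
      map_smul' := by
        intro q g
        funext m
        simp only [Pi.smul_apply, smul_eq_mul, RingHom.id_apply]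
        rw [Finset.mul_sum]
        exact Finset.sum_congr rfl fun i _ => by ring }
  have hL : LinearMap.ker L = ⊥ := by
    rw [LinearMap.ker_eq_bot']
    intro g hg
    obtain ⟨b, hb⟩ := IsLocalization.exist_integer_multiples_of_finite (nonZeroDivisors ℤ) g
    choose z hz using hb
    have hb0 : ((b : ℤ) : ℚ) ≠ 0 := by
      have := nonZeroDivisors.ne_zero b.2
      exact_mod_cast this
    have hz' : ∀ i, ((z i : ℤ) : ℚ) = ((b : ℤ) : ℚ) * g i := by
      intro i
      have := hz i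
      rw [zsmul_eq_mul] at this
      exact this
    have hsum : ∑ i, z i • a i = 0 := by
      ext m
      rw [MvPolynomial.coeff_sum, MvPolynomial.coeff_zero]
      by_cases hm : m ∈ T
      · have h1 := congrFun hg ⟨m, hm⟩
        have h2 : ∑ i, g i * (((a i).coeff m : ℤ) : ℚ) = 0 := h1
        have h3 : ((∑ i, MvPolynomial.coeff m (z i • a i) : ℤ) : ℚ) = 0 := by
          rw [Int.cast_sum]
          have : ∀ i, ((MvPolynomial.coeff m (z i • a i) : ℤ) : ℚ) =
              ((b : ℤ) : ℚ) * (g i * (((a i).coeff m : ℤ) : ℚ)) := by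
            intro i
            rw [MvPolynomial.coeff_smul, smul_eq_mul, Int.cast_mul, hz' i]
            ring
          simp only [this]
          rw [← Finset.mul_sum, h2, mul_zero]
        exact_mod_cast h3
      · refine Finset.sum_eq_zero fun i _ => ?_
        rw [MvPolynomial.coeff_smul]
        have : (a i).coeff m = 0 := by
          by_contra h
          apply hm
          rw [hT, Finset.mem_biUnion]
          exact ⟨i, Finset.mem_univ _, MvPolynomial.mem_support_iff.2 h⟩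
        rw [this, smul_zero]
    have hz0 := Fintype.linearIndependent_iff.1 ha z hsum
    funext i
    have h4 := hz' i
    rw [hz0 i, Int.cast_zero] at h4
    exact (mul_eq_zero.1 h4.symm).resolve_left hb0
  obtain ⟨R, hR⟩ := LinearMap.exists_leftInverse_of_injective L hL
  obtain ⟨b, hb⟩ := IsLocalization.exist_integer_multiples_of_finite (nonZeroDivisors ℤ)
    (fun mj : T × Fin d => R (Pi.single mj.1 1) mj.2)
  choose z hz using hb
  have hb0 : (b : ℤ) ≠ 0 := nonZeroDivisors.ne_zero b.2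
  have hz' : ∀ m j, ((z (m, j) : ℤ) : ℚ) = ((b : ℤ) : ℚ) * R (Pi.single m 1) j := by
    intro m j
    have := hz (m, j)
    rw [zsmul_eq_mul] at this
    exact this
  refine ⟨(b : ℤ).natAbs, Int.natAbs_pos.2 hb0, fun p e hdvd j => ?_⟩
  rw [MvPolynomial.C_dvd_iff_dvd_coeff] at hdvd
  choose s hs using hdvd
  have hLe : L (fun i => (e i : ℚ)) = fun m : T => (p : ℚ) * (s m.1 : ℚ) := by
    funext m
    have h1 := hs m.1
    rw [MvPolynomial.coeff_sum] at h1
    simp only [MvPolynomial.coeff_C_mul] at h1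
    have h2 : L (fun i => (e i : ℚ)) m = ∑ i, (e i : ℚ) * (((a i).coeff m.1 : ℤ) : ℚ) := rfl
    rw [h2]
    have h3 : ((∑ i, e i * (a i).coeff m.1 : ℤ) : ℚ) = (((p : ℤ) * s m.1 : ℤ) : ℚ) := by
      rw [h1]
    push_cast at h3
    exact h3
  have hRe : (fun i => (e i : ℚ)) = R (fun m : T => (p : ℚ) * (s m.1 : ℚ)) := by
    rw [← hLe]
    have := LinearMap.congr_fun hR (fun i => (e i : ℚ))
    exact this.symm
  have h5 : (e j : ℚ) = ∑ m : T, ((p : ℚ) * (s m.1 : ℚ)) * R (Pi.single m 1) j := by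
    have h6 := congrFun hRe j
    rw [h6, LinearMap.pi_apply_eq_sum_univ R, Finset.sum_apply]
    refine Finset.sum_congr rfl fun m _ => ?_
    rw [Pi.smul_apply, smul_eq_mul]
    have h11 : (fun k => if m = k then (1 : ℚ) else 0) = Pi.single m 1 := by
      funext k
      rw [Pi.single_apply]
      by_cases h : m = k
      · simp [h]
      · rw [if_neg h, if_neg (fun h' => h h'.symm)]
    rw [h11]
  have h7 : (b : ℤ) * e j = (p : ℤ) * ∑ m : T, s m.1 * z (m, j) := by
    have h8 : (((b : ℤ) * e j : ℤ) : ℚ) = (((p : ℤ) * ∑ m : T, s m.1 * z (m, j) : ℤ) : ℚ) := by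
      push_cast
      rw [h5, Finset.mul_sum, Finset.mul_sum]
      refine Finset.sum_congr rfl fun m _ => ?_
      rw [hz' m j]
      ring
    exact_mod_cast h8
  have h9 : (p : ℤ) ∣ (b : ℤ) * e j := ⟨_, h7⟩
  rcases Int.natAbs_eq (b : ℤ) with h | h
  · rw [← h]; exact h9
  · have h10 : (((b : ℤ).natAbs : ℤ)) = -(b : ℤ) := by rw [h]; simp
    rw [h10, neg_mul, dvd_neg]
    exact h9

theorem independent {d r : ℕ} (hd : 1 ≤ d) (c : Fin d → ℤ)
    (hc : c ⟨d - 1, by omega⟩ ≠ 0) (hsq : Squarefree ((charPoly c).map (Int.castRingHom ℚ)))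
    (a : Fin d → MvPolynomial (Fin r) ℤ) (ha : LinearIndependent ℤ a) :
    Certified c a 0 := by
  obtain ⟨N, hN, hdiv⟩ := indep_dvd a ha
  refine main_general hd c hc hsq a 0 (N + (c ⟨d - 1, by omega⟩).natAbs + 1) ?_
  intro W hW p hp hpp n hdvd
  rw [sub_zero, isSeqP_eq c a W hW n, U_eq_sum] at hdvd
  obtain ⟨j, hj⟩ := basis_coprime hd (fun i => c (Fin.rev i)) p hp (by
    have e : Fin.rev (⟨0, by omega⟩ : Fin d) = ⟨d - 1, by omega⟩ := by
      apply Fin.ext
      rw [Fin.val_rev]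
    rw [e]
    intro h
    have h1 := Int.natAbs_dvd_natAbs.2 h
    rw [Int.natAbs_natCast] at h1
    have h2 := Nat.le_of_dvd (Int.natAbs_pos.2 hc) h1
    omega) n
  have h1 := hdiv p _ hdvd j
  rcases (Nat.prime_iff_prime_int.1 hp).dvd_or_dvd h1 with h | h
  · have h2 : p ∣ N := by exact_mod_cast h
    have h3 := Nat.le_of_dvd hN h2
    omega
  · exact hj h

end Pool.Agent.Run7.h644.SK
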