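import Pool.Agent.H684R3.Smo.Done

set_option autoImplicit false

/-!
Linear recurrence sequences whose initial values are polynomials in parameters: local counts.
-/

namespace Pool.Agent.Run7.h644.SK
open Pool.Agent.H884R2.Sko Pool.Agent.H684R3.Smo Pool.Agent.H692R2.USS Polynomial Finset

open Classical in
/-- Schwartz-Zippel over all of `ZMod p`. -/
lemma card_zeros (p : ℕ) [Fact p.Prime] {r : ℕ} (Q : MvPolynomial (Fin r) (ZMod p)) (hQ : Q ≠ 0)
    (D : ℕ) (hD : Q.totalDegree ≤ D) :
    ((univ : Finset (Fin r → ZMod p)).filter (fun x => MvPolynomial.eval x Q = 0)).card * p ≤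
      D * p ^ r := by
  have h := MvPolynomial.schwartz_zippel_totalDegree hQ (univ : Finset (ZMod p))
  rw [Fintype.piFinset_univ, Finset.card_univ, ZMod.card] at h
  have hp : 0 < p := (Fact.out : p.Prime).pos
  have hp' : (0 : ℚ≥0) < p := by exact_mod_cast hp
  rw [div_le_div_iff₀ (by positivity) hp'] at h
  have h2 : ((univ : Finset (Fin r → ZMod p)).filter
      (fun x => MvPolynomial.eval x Q = 0)).card * p ≤ Q.totalDegree * p ^ r := by
    exact_mod_cast h
  exact h2.trans (Nat.mul_le_mul_right _ hD)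

/-- The period of all solutions if the characteristic roots are `l`-th powers. -/
theorem period_all (p l : ℕ) [Fact p.Prime] (hl : 1 ≤ l) {d : ℕ}
    (c : Fin d → ZMod p) (h1 : (chi c).Splits) (h2 : (expand (ZMod p) l (chi c)).Splits)
    (h3 : (cyclotomic l (ZMod p)).Splits) (hpl : ¬ p ∣ l) (hsep : (chi c).Separable)
    (h0 : (chi c).coeff 0 ≠ 0) :
    ∃ T, 0 < T ∧ l * T = p - 1 ∧
      ∀ (v : Fin d → ZMod p) (n : ℕ), seq c v (n + T) = seq c v n := by
  classical
  have hp : p.Prime := Fact.out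
  have hne : chi c ≠ 0 := (chi_monic c).ne_zero
  set S : Finset (ZMod p) := (chi c).roots.toFinset with hS
  have hnd : (chi c).roots.Nodup := nodup_roots hsep
  have hval : S.val = (chi c).roots := by
    rw [hS, Multiset.toFinset_val, hnd.dedup]
  have hcard : S.card = d := by
    rw [Finset.card_def, hval, ← h1.natDegree_eq_card_roots, chi_natDegree]
  have hpoly : poly S = chi c := by
    unfold poly
    rw [Finset.prod_eq_multiset_prod, hval]
    exact (h1.eq_prod_roots_of_monic (chi_monic c)).symm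
  have hcoef : coef d S = c := by
    funext i
    unfold coef
    rw [hpoly, chi_coeff, neg_neg]
  have hlne : NeZero ((l : ℕ) : ZMod p) := by
    refine ⟨fun h => hpl ?_⟩
    rwa [ZMod.natCast_eq_zero_iff] at h
  have hdvd : l ∣ p - 1 := by
    obtain ⟨μ, hμ⟩ := h3.exists_eval_eq_zero (by
      rw [degree_cyclotomic]
      have := Nat.totient_pos.2 hl
      exact_mod_cast this.ne')
    have hprim : IsPrimitiveRoot μ l := isRoot_cyclotomic_iff.1 hμ
    apply hprim.dvd_of_pow_eq_one
    apply ZMod.pow_card_sub_one_eq_one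
    rintro rfl
    have := hprim.pow_eq_one
    rw [zero_pow (by omega)] at this
    exact zero_ne_one this
  obtain ⟨T, hT⟩ := hdvd
  have hp1 : 1 ≤ p - 1 := by have := hp.two_le; omega
  have hTpos : 0 < T := by
    rcases Nat.eq_zero_or_pos T with h | h
    · subst h; omega
    · exact h
  have hST : ∀ a ∈ S, a ^ T = 1 := by
    intro a ha
    rw [hS, Multiset.mem_toFinset, mem_roots hne] at ha
    have ha0 : a ≠ 0 := by
      rintro rfl
      rw [IsRoot, ← coeff_zero_eq_eval_zero] at ha
      exact h0 ha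
    have h4 : (X ^ l - C a : (ZMod p)[X]) ∣ expand (ZMod p) l (chi c) := by
      have h5 := map_dvd (expand (ZMod p) l) (dvd_iff_isRoot.2 ha)
      rwa [map_sub, expand_X, expand_C] at h5
    have h6 : expand (ZMod p) l (chi c) ≠ 0 := by
      rw [Ne, expand_eq_zero (by omega)]; exact hne
    have h7 := h2.of_dvd h6 h4
    obtain ⟨β, hβ⟩ := h7.exists_eval_eq_zero (by
      rw [degree_X_pow_sub_C (by omega)]
      exact_mod_cast (by omega : l ≠ 0))
    rw [eval_sub, eval_pow, eval_X, eval_C, sub_eq_zero] at hβ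
    have hβ0 : β ≠ 0 := by
      rintro rfl
      rw [zero_pow (by omega)] at hβ
      exact ha0 hβ.symm
    rw [← hβ, ← pow_mul, ← hT]
    exact ZMod.pow_card_sub_one_eq_one hβ0
  refine ⟨T, hTpos, hT.symm, fun v n => ?_⟩
  have h8 := seq_periodic d T S hcard hST v n
  rwa [hcoef] at h8

lemma seq_mul_period {K : Type*} [CommRing K] {d : ℕ} (c v : Fin d → K) (T : ℕ)
    (h : ∀ n, seq c v (n + T) = seq c v n) (k n : ℕ) : seq c v (n + k * T) = seq c v n := by
  induction k with
  | zero => simp
  | succ k ih =>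
    rw [Nat.succ_mul, ← add_assoc, h, ih]

lemma seq_mod_period {K : Type*} [CommRing K] {d : ℕ} (c v : Fin d → K) (T : ℕ)
    (h : ∀ n, seq c v (n + T) = seq c v n) (n : ℕ) : seq c v n = seq c v (n % T) := by
  conv_lhs => rw [← Nat.mod_add_div n T, mul_comm]
  exact seq_mul_period c v T h _ _

/-- the sequence of polynomials with coefficients `c` and initial values `a` -/
noncomputable def U {d r : ℕ} (c : Fin d → ℤ) (a : Fin d → MvPolynomial (Fin r) ℤ) (n : ℕ) :
    MvPolynomial (Fin r) ℤ :=
  seq (fun i => MvPolynomial.C (c i)) a n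

lemma totalDegree_U {d r : ℕ} (c : Fin d → ℤ) (a : Fin d → MvPolynomial (Fin r) ℤ) (D : ℕ)
    (hD : ∀ i, (a i).totalDegree ≤ D) (n : ℕ) : (U c a n).totalDegree ≤ D := by
  induction n using Nat.strong_induction_on with
  | _ n ih =>
    by_cases hn : n < d
    · have h1 : U c a n = a ⟨n, hn⟩ := seq_init _ _ ⟨n, hn⟩
      rw [h1]
      exact hD _
    · obtain ⟨m, rfl⟩ : ∃ m, n = m + d := ⟨n - d, by omega⟩
      have h1 : U c a (m + d) = ∑ i : Fin d, MvPolynomial.C (c i) * U c a (m + i) := seq_sol _ _ m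
      rw [h1]
      refine MvPolynomial.totalDegree_finsetSum_le (fun i _ => ?_)
      refine le_trans (MvPolynomial.totalDegree_mul _ _) ?_
      rw [MvPolynomial.totalDegree_C, zero_add]
      exact ih _ (by have := i.2; omega)

/-- reduction modulo `p` -/
noncomputable def red (p : ℕ) {r : ℕ} : MvPolynomial (Fin r) ℤ →+* MvPolynomial (Fin r) (ZMod p) :=
  MvPolynomial.map (Int.castRingHom (ZMod p))

/-- the value modulo `p` at a point modulo `p` -/
noncomputable def val (p : ℕ) {r : ℕ} (x : Fin r → ZMod p) : MvPolynomial (Fin r) ℤ →+* ZMod p :=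
  (MvPolynomial.eval x).comp (red p)

lemma val_U {d r : ℕ} (c : Fin d → ℤ) (a : Fin d → MvPolynomial (Fin r) ℤ) (p : ℕ)
    (x : Fin r → ZMod p) (n : ℕ) :
    val p x (U c a n) = seq (fun i => (c i : ZMod p)) (fun i => val p x (a i)) n := by
  unfold U
  rw [Pool.Agent.H884R2.Sko.map_seq]
  congr 1
  funext i
  simp [val, red]

lemma val_int {r : ℕ} (p : ℕ) (x : Fin r → ℤ) (Q : MvPolynomial (Fin r) ℤ) :
    val p (fun i => (x i : ZMod p)) Q = ((MvPolynomial.eval x Q : ℤ) : ZMod p) := by
  unfold val red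
  rw [RingHom.comp_apply, MvPolynomial.eval_map]
  have h := MvPolynomial.eval₂_comp_left (Int.castRingHom (ZMod p)) (RingHom.id ℤ) x Q
  rw [MvPolynomial.eval]
  simp only [MvPolynomial.coe_eval₂Hom]
  rw [← eq_intCast (Int.castRingHom (ZMod p)), h]
  rfl

/-- the good parameters modulo `p` -/
def GoodX {d r : ℕ} (p : ℕ) (c : Fin d → ℤ) (a : Fin d → MvPolynomial (Fin r) ℤ)
    (F : MvPolynomial (Fin r) ℤ) (x : Fin r → ZMod p) : Prop :=
  (∀ n, seq (fun i => (c i : ZMod p)) (fun i => val p x (a i)) (n + (p - 1)) =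
    seq (fun i => (c i : ZMod p)) (fun i => val p x (a i)) n) ∧
  ∀ n, seq (fun i => (c i : ZMod p)) (fun i => val p x (a i)) n ≠ val p x F

open Classical in
/-- At least half of the parameters modulo `p` are good. -/
theorem local_count {d r : ℕ} (c : Fin d → ℤ) (h0 : (chi c).coeff 0 ≠ 0)
    (hsq : Squarefree ((chi c).map (Int.castRingHom ℚ)))
    (a : Fin d → MvPolynomial (Fin r) ℤ) (F : MvPolynomial (Fin r) ℤ) (p₀ : ℕ)
    (hC : ∀ p : ℕ, p.Prime → p₀ ≤ p → ∀ n, red p (U c a n - F) ≠ 0) :
    ∃ (G : ℤ[X]) (p₁ : ℕ), G.Monic ∧ ∀ p : ℕ, p.Prime → p₁ ≤ p →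
      (G.map (Int.castRingHom (ZMod p))).Splits →
      (1 / 2 : ℝ) * (p : ℝ) ^ (Fintype.card (Fin r)) ≤
        (Nat.card {x : Fin r → ZMod p // GoodX p c a F x} : ℝ) := by
  obtain ⟨ρ, hr0, hr⟩ := separable_mod (chi c) hsq
  set D : ℕ := (univ.sup fun i => (a i).totalDegree) + F.totalDegree + 1 with hDdef
  have hDa : ∀ i, (a i).totalDegree ≤ D := by
    intro i
    have := Finset.le_sup (f := fun i => (a i).totalDegree) (Finset.mem_univ i)
    have h2 : (a i).totalDegree ≤ univ.sup fun i => (a i).totalDegree := this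
    omega
  set l : ℕ := 2 * D with hl
  have hl1 : 1 ≤ l := by omega
  set G : ℤ[X] := chi c * (expand ℤ l (chi c) * cyclotomic l ℤ) with hG
  have hGm : G.Monic := (chi_monic c).mul (((chi_monic c).expand (by omega)).mul
    (cyclotomic.monic l ℤ))
  refine ⟨G, p₀ + l + 1 + ρ.natAbs + ((chi c).coeff 0).natAbs, hGm, fun p hp hpN hsp => ?_⟩
  have : Fact p.Prime := ⟨hp⟩
  have hGne : G.map (Int.castRingHom (ZMod p)) ≠ 0 := (hGm.map _).ne_zero
  have hdv : ∀ z : ℤ, z ≠ 0 → z.natAbs < p → ¬ (p : ℤ) ∣ z := by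
    intro z hz hzp hdvd
    have := Int.natAbs_dvd_natAbs.2 hdvd
    rw [Int.natAbs_natCast] at this
    exact absurd (Nat.le_of_dvd (Int.natAbs_pos.2 hz) this) (not_le.2 hzp)
  have hcm : (chi c).map (Int.castRingHom (ZMod p)) = chi (fun i => (c i : ZMod p)) := by
    rw [chi_map]; rfl
  have e1 : (chi (fun i => (c i : ZMod p))) ∣ G.map (Int.castRingHom (ZMod p)) := by
    rw [← hcm, hG, Polynomial.map_mul]; exact dvd_mul_right _ _
  have e2 : expand (ZMod p) l (chi (fun i => (c i : ZMod p))) ∣
      G.map (Int.castRingHom (ZMod p)) := by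
    rw [← hcm, ← map_expand, hG, Polynomial.map_mul, Polynomial.map_mul]
    exact (dvd_mul_right _ _).mul_left _
  have e3 : cyclotomic l (ZMod p) ∣ G.map (Int.castRingHom (ZMod p)) := by
    rw [← map_cyclotomic l (Int.castRingHom (ZMod p)), hG, Polynomial.map_mul,
      Polynomial.map_mul]
    exact (dvd_mul_left _ _).mul_left _
  have hsep : (chi (fun i => (c i : ZMod p))).Separable := by
    rw [← hcm]
    exact hr p hp (hdv ρ hr0 (by omega))
  have hc0 : (chi (fun i => (c i : ZMod p))).coeff 0 ≠ 0 := by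
    rw [← hcm, coeff_map, eq_intCast, Ne, ZMod.intCast_zmod_eq_zero_iff_dvd]
    exact hdv _ h0 (by omega)
  obtain ⟨T, hT0, hT, hper⟩ := period_all p l hl1 (fun i => (c i : ZMod p)) (hsp.of_dvd hGne e1)
    (hsp.of_dvd hGne e2) (hsp.of_dvd hGne e3) (by
      intro h
      exact absurd (Nat.le_of_dvd (by omega) h) (by omega)) hsep hc0
  -- the bad parameters
  set bad : Finset (Fin r → ZMod p) := (univ : Finset (Fin r → ZMod p)).filter
    (fun x => ∃ n, seq (fun i => (c i : ZMod p)) (fun i => val p x (a i)) n = val p x F) with hbad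
  have hsub : bad ⊆ (range T).biUnion (fun n => univ.filter
      (fun x => MvPolynomial.eval x (red p (U c a n - F)) = 0)) := by
    intro x hx
    rw [hbad, Finset.mem_filter] at hx
    obtain ⟨-, n, hn⟩ := hx
    rw [Finset.mem_biUnion]
    refine ⟨n % T, Finset.mem_range.2 (Nat.mod_lt _ hT0), ?_⟩
    rw [Finset.mem_filter]
    refine ⟨Finset.mem_univ _, ?_⟩
    have h1 : MvPolynomial.eval x (red p (U c a (n % T) - F)) = val p x (U c a (n % T) - F) := rfl
    rw [h1, map_sub, val_U, ← seq_mod_period _ _ T (hper _), hn, sub_self]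
  have hcount : bad.card * p ≤ T * (D * p ^ r) := by
    calc bad.card * p ≤ (∑ n ∈ range T, ((univ : Finset (Fin r → ZMod p)).filter
            (fun x => MvPolynomial.eval x (red p (U c a n - F)) = 0)).card) * p :=
          Nat.mul_le_mul_right _ ((Finset.card_le_card hsub).trans Finset.card_biUnion_le)
      _ = ∑ n ∈ range T, ((univ : Finset (Fin r → ZMod p)).filter
            (fun x => MvPolynomial.eval x (red p (U c a n - F)) = 0)).card * p := by
          rw [Finset.sum_mul]
      _ ≤ ∑ n ∈ range T, D * p ^ r := by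
          refine Finset.sum_le_sum (fun n _ => ?_)
          apply card_zeros p _ (hC p hp (by omega) n) D
          refine le_trans (Finset.sup_mono (MvPolynomial.support_map_subset _ _)) ?_
          refine le_trans (MvPolynomial.totalDegree_sub _ _) ?_
          refine max_le (totalDegree_U c a D hDa n) ?_
          omega
      _ = T * (D * p ^ r) := by simp
  have h2 : 2 * bad.card ≤ p ^ r := by
    have h3 : 2 * bad.card * p ≤ p ^ r * p := by
      calc 2 * bad.card * p = 2 * (bad.card * p) := by ring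
        _ ≤ 2 * (T * (D * p ^ r)) := Nat.mul_le_mul_left _ hcount
        _ = (l * T) * p ^ r := by rw [hl]; ring
        _ = (p - 1) * p ^ r := by rw [hT]
        _ ≤ p * p ^ r := Nat.mul_le_mul_right _ (Nat.sub_le _ _)
        _ = p ^ r * p := by ring
    exact Nat.le_of_mul_le_mul_right h3 hp.pos
  have hcardeq : Nat.card {x : Fin r → ZMod p // GoodX p c a F x} =
      ((univ : Finset (Fin r → ZMod p)).filter (fun x => ¬ ∃ n, seq (fun i => (c i : ZMod p))
        (fun i => val p x (a i)) n = val p x F)).card := by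
    rw [Nat.card_eq_fintype_card, Fintype.card_subtype]
    congr 1
    apply Finset.filter_congr
    intro x _
    unfold GoodX
    constructor
    · rintro ⟨-, h⟩ ⟨n, hn⟩
      exact h n hn
    · intro h
      refine ⟨fun n => ?_, fun n hn => h ⟨n, hn⟩⟩
      rw [← hT]
      exact seq_mul_period _ _ T (hper _) l n
  rw [hcardeq]
  have hsum := Finset.card_filter_add_card_filter_not (s := (univ : Finset (Fin r → ZMod p)))
    (fun x => ∃ n, seq (fun i => (c i : ZMod p)) (fun i => val p x (a i)) n = val p x F)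
  rw [Finset.card_univ, Fintype.card_fun, ZMod.card, Fintype.card_fin] at hsum
  rw [Fintype.card_fin]
  have h9 : (p : ℝ) ^ r = ((p ^ r : ℕ) : ℝ) := by push_cast; rfl
  rw [h9]
  set g := ((univ : Finset (Fin r → ZMod p)).filter (fun x => ¬ ∃ n, seq (fun i => (c i : ZMod p))
        (fun i => val p x (a i)) n = val p x F)).card with hg
  have h10 : p ^ r ≤ 2 * g := by
    have h12 : bad.card + g = p ^ r := hsum
    omega
  have h11 : ((p ^ r : ℕ) : ℝ) ≤ 2 * (g : ℝ) := by exact_mod_cast h10
  linarith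

end Pool.Agent.Run7.h644.SK
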