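import Pool.Agent.Run7.h644.SK.Matrices

set_option autoImplicit false

/-!
Products of powers of integer matrices and subspaces: almost all vectors.
-/

namespace Pool.Agent.Run7.h644.SK
open Pool.Agent.H884R2.Sko Pool.Agent.H684R3.Smo Pool.Agent.H692R2.USS Polynomial Finset

/-- the rational matrix of an integer matrix -/
noncomputable def toRat {m d : ℕ} (W : Matrix (Fin m) (Fin d) ℤ) : Matrix (Fin m) (Fin d) ℚ :=
  W.map (Int.castRingHom ℚ)

theorem right_inv {m d : ℕ} (W : Matrix (Fin m) (Fin d) ℤ) (hW : LinearIndependent ℤ W.row) :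
    ∃ (N : ℤ) (B : Matrix (Fin d) (Fin m) ℤ), N ≠ 0 ∧ W * B = N • (1 : Matrix (Fin m) (Fin m) ℤ) := by
  classical
  have h1 : LinearIndependent ℤ (toRat W).row := by
    rw [Fintype.linearIndependent_iff] at hW ⊢
    intro g hg
    apply hW g
    funext j
    have h2 := congrFun hg j
    rw [Finset.sum_apply, Pi.zero_apply] at h2 ⊢
    have h3 : ((∑ i, (g i • W.row i) j : ℤ) : ℚ) = 0 := by
      rw [← h2]
      push_cast
      refine Finset.sum_congr rfl fun i _ => ?_
      simp [toRat, Matrix.row]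
    exact_mod_cast h3
  have h2 : LinearIndependent ℚ (toRat W).row := (LinearIndependent.iff_fractionRing ℤ ℚ).1 h1
  have h3 : Function.Surjective (toRat W).mulVec := by
    have h4 := h2.rank_matrix
    rw [Matrix.rank] at h4
    have h5 : LinearMap.range (toRat W).mulVecLin = ⊤ := by
      apply Submodule.eq_top_of_finrank_eq
      rw [h4]
      simp
    rw [LinearMap.range_eq_top] at h5
    exact h5
  obtain ⟨Bq, hBq⟩ := Matrix.mulVec_surjective_iff_exists_right_inverse.1 h3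
  obtain ⟨b, hb⟩ := IsLocalization.exist_integer_multiples_of_finite (nonZeroDivisors ℤ)
    (fun ij : Fin d × Fin m => Bq ij.1 ij.2)
  choose z hz using hb
  have hb0 : (b : ℤ) ≠ 0 := nonZeroDivisors.ne_zero b.2
  have hz' : ∀ i j, ((z (i, j) : ℤ) : ℚ) = ((b : ℤ) : ℚ) * Bq i j := by
    intro i j
    have := hz (i, j)
    rw [zsmul_eq_mul] at this
    exact this
  refine ⟨b, Matrix.of fun i j => z (i, j), hb0, ?_⟩
  ext i j
  have h6 := congrFun (congrFun hBq i) j
  rw [Matrix.mul_apply] at h6 ⊢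
  simp only [Matrix.of_apply]
  have h7 : ((∑ l, W i l * z (l, j) : ℤ) : ℚ) =
      ((((b : ℤ) • (1 : Matrix (Fin m) (Fin m) ℤ)) i j : ℤ) : ℚ) := by
    push_cast
    have h8 : ∀ l, (W i l : ℚ) * (z (l, j) : ℚ) = ((b : ℤ) : ℚ) * ((toRat W) i l * Bq l j) := by
      intro l
      rw [hz' l j]
      simp only [toRat, Matrix.map_apply, eq_intCast]
      ring
    simp only [h8]
    rw [← Finset.mul_sum, h6]
    simp only [Matrix.smul_apply, Matrix.one_apply, smul_eq_mul]
    push_cast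
    split_ifs <;> simp
  exact_mod_cast h7

/-- a matrix is diagonalizable over the complex numbers: its minimal polynomial over `ℚ` has no
multiple roots -/
def Diag {d : ℕ} (M : Matrix (Fin d) (Fin d) ℤ) : Prop := Squarefree (minpoly ℚ (toRat M))

/-- an annihilating integer polynomial -/
theorem annihilator {d : ℕ} (M : Matrix (Fin d) (Fin d) ℤ) (hM : M.det ≠ 0) :
    ∃ f : ℤ[X], f.Monic ∧ f.coeff 0 ≠ 0 ∧ aeval M f = 0 ∧
      (Diag M → Squarefree (f.map (Int.castRingHom ℚ))) := by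
  classical
  have hdvd : minpoly ℚ (toRat M) ∣ M.charpoly.map (algebraMap ℤ ℚ) := by
    have h1 : M.charpoly.map (algebraMap ℤ ℚ) = (toRat M).charpoly :=
      (Matrix.charpoly_map M (Int.castRingHom ℚ)).symm
    rw [h1]
    exact Matrix.minpoly_dvd_charpoly _
  obtain ⟨g, hg⟩ := IsIntegrallyClosed.eq_map_mul_C_of_dvd ℚ M.charpoly_monic hdvd
  have hmm : (minpoly ℚ (toRat M)).Monic := minpoly.monic (Matrix.isIntegral _)
  rw [hmm.leadingCoeff, C_1, mul_one] at hg
  have hinj : Function.Injective (algebraMap ℤ ℚ) := Int.cast_injective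
  have hgm : g.Monic := by
    refine Polynomial.monic_of_injective hinj ?_
    rw [hg]; exact hmm
  refine ⟨g, hgm, ?_, ?_, ?_⟩
  · intro h0
    have h1 : (minpoly ℚ (toRat M)).coeff 0 = 0 := by
      rw [← hg, coeff_map, h0, map_zero]
    obtain ⟨q, hq⟩ := hdvd
    have h2 : (M.charpoly.map (algebraMap ℤ ℚ)).coeff 0 = 0 := by
      rw [hq, mul_coeff_zero, h1, zero_mul]
    rw [coeff_map] at h2
    have h3 : M.charpoly.coeff 0 = 0 := by
      have := hinj (h2.trans (map_zero (algebraMap ℤ ℚ)).symm)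
      exact this
    apply hM
    rw [Matrix.det_eq_sign_charpoly_coeff, h3, mul_zero]
  · have h1 : aeval (toRat M) (g.map (algebraMap ℤ ℚ)) = 0 := by
      rw [hg]; exact minpoly.aeval _ _
    have h2 : toRat (aeval M g) = aeval (toRat M) (g.map (algebraMap ℤ ℚ)) := by
      have h3 := Polynomial.map_aeval_eq_aeval_map (S := Matrix (Fin d) (Fin d) ℤ)
        (T := ℚ) (U := Matrix (Fin d) (Fin d) ℚ) (φ := algebraMap ℤ ℚ)
        (ψ := (Int.castRingHom ℚ).mapMatrix (m := Fin d)) (by ext; simp) g M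
      exact h3
    rw [h1] at h2
    have h3 : Function.Injective (toRat (m := d) (d := d)) := by
      intro a b hab
      ext i j
      have := congrFun (congrFun hab i) j
      simp only [toRat, Matrix.map_apply, eq_intCast] at this
      exact_mod_cast this
    apply h3
    rw [h2]
    ext i j
    simp [toRat]
  · intro h
    have : g.map (Int.castRingHom ℚ) = minpoly ℚ (toRat M) := hg
    rw [this]
    exact h

open Classical in
/-- `1` for diagonalizable matrices, `2` for the others -/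
noncomputable def weight {d : ℕ} (M : Matrix (Fin d) (Fin d) ℤ) : ℕ := if Diag M then 1 else 2

/-- a matrix modulo `p` -/
def md (p : ℕ) {m d : ℕ} (W : Matrix (Fin m) (Fin d) ℤ) : Matrix (Fin m) (Fin d) (ZMod p) :=
  W.map (Int.castRingHom (ZMod p))

theorem md_mprod (p : ℕ) {d k : ℕ} (M : Fin k → Matrix (Fin d) (Fin d) ℤ) (n : Fin k → ℕ) :
    md p (mprod M n) = mprod (fun i => md p (M i)) n := mprod_map _ M n

/-- the good vectors modulo `p` -/
def GoodV {d k m : ℕ} (M : Fin k → Matrix (Fin d) (Fin d) ℤ) (W : Matrix (Fin m) (Fin d) ℤ)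
    (p : ℕ) (x : Fin d → ZMod p) : Prop :=
  ∀ n : Fin k → ℕ, (md p W).mulVec ((mprod (fun i => md p (M i)) n).mulVec x) ≠ 0

theorem dvd_split {R : Type*} [Field R] {f g : R[X]} (hg : g ≠ 0) (h : f ∣ g) (hs : g.Splits) :
    f.Splits := hs.of_dvd hg h

open Classical in
theorem local_mat {d k m : ℕ} (hk : 1 ≤ k) (M : Fin k → Matrix (Fin d) (Fin d) ℤ)
    (hM : ∀ i, (M i).det ≠ 0) (W : Matrix (Fin m) (Fin d) ℤ) (hW : LinearIndependent ℤ W.row)
    (hs : ∑ i, weight (M i) ≤ m) :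
    ∃ (G : ℤ[X]) (p₁ : ℕ), G.Monic ∧ ∀ p : ℕ, p.Prime → p₁ ≤ p →
      (G.map (Int.castRingHom (ZMod p))).Splits →
      (∀ i, md p (M i) ^ (p * (p - 1)) = 1) ∧
      (1 / 2 : ℝ) * (p : ℝ) ^ (Fintype.card (Fin d)) ≤
        (Nat.card {x : Fin d → ZMod p // GoodV M W p x} : ℝ) := by
  obtain ⟨N, B, hN, hB⟩ := right_inv W hW
  choose f hfm hf0 hfM hfs using fun i => annihilator (M i) (hM i)
  have hr : ∀ i, ∃ ρ : ℤ, ρ ≠ 0 ∧ (Diag (M i) → ∀ p : ℕ, p.Prime → ¬ (p : ℤ) ∣ ρ →
      ((f i).map (Int.castRingHom (ZMod p))).Separable) := by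
    intro i
    by_cases h : Diag (M i)
    · obtain ⟨ρ, h1, h2⟩ := separable_mod (f i) (hfs i h)
      exact ⟨ρ, h1, fun _ => h2⟩
    · exact ⟨1, one_ne_zero, fun h' => absurd h' h⟩
  choose ρ hρ0 hρ using hr
  set G : ℤ[X] := ∏ i, (f i * expand ℤ 2 (f i)) with hG
  have hGm : G.Monic := monic_prod_of_monic _ _ fun i _ =>
    (hfm i).mul ((hfm i).expand (by omega))
  set Z : ℕ := ∑ i, ((ρ i).natAbs + ((f i).coeff 0).natAbs + (M i).det.natAbs +
    (f i).natDegree) with hZ
  refine ⟨G, Z + N.natAbs + 3, hGm, fun p hp hpp hsp => ?_⟩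
  have : Fact p.Prime := ⟨hp⟩
  have hGne : G.map (Int.castRingHom (ZMod p)) ≠ 0 := (hGm.map _).ne_zero
  have hdv : ∀ z : ℤ, z ≠ 0 → z.natAbs < p → ¬ (p : ℤ) ∣ z := by
    intro z hz hzp hdvd
    have := Int.natAbs_dvd_natAbs.2 hdvd
    rw [Int.natAbs_natCast] at this
    exact absurd (Nat.le_of_dvd (Int.natAbs_pos.2 hz) this) (not_le.2 hzp)
  have hle : ∀ i, (ρ i).natAbs + ((f i).coeff 0).natAbs + (M i).det.natAbs +
      (f i).natDegree ≤ Z := fun i =>
    Finset.single_le_sum (f := fun i => (ρ i).natAbs + ((f i).coeff 0).natAbs +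
      (M i).det.natAbs + (f i).natDegree) (fun _ _ => Nat.zero_le _) (Finset.mem_univ i)
  have hGd : ∀ i, ((f i).map (Int.castRingHom (ZMod p)) *
      expand (ZMod p) 2 ((f i).map (Int.castRingHom (ZMod p)))) ∣
      G.map (Int.castRingHom (ZMod p)) := by
    intro i
    rw [← map_expand, ← Polynomial.map_mul]
    exact Polynomial.map_dvd _ (Finset.dvd_prod_of_mem (fun i => f i * expand ℤ 2 (f i))
      (Finset.mem_univ i))
  have s1 : ∀ i, ((f i).map (Int.castRingHom (ZMod p))).Splits := fun i =>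
    hsp.of_dvd hGne ((dvd_mul_right _ _).trans (hGd i))
  have s2 : ∀ i, (expand (ZMod p) 2 ((f i).map (Int.castRingHom (ZMod p)))).Splits := fun i =>
    hsp.of_dvd hGne ((dvd_mul_left _ _).trans (hGd i))
  have c0 : ∀ i, ((f i).map (Int.castRingHom (ZMod p))).coeff 0 ≠ 0 := by
    intro i
    rw [coeff_map, eq_intCast, Ne, ZMod.intCast_zmod_eq_zero_iff_dvd]
    refine hdv _ (hf0 i) ?_
    have := hle i
    omega
  have hm' : ∀ i, ((f i).map (Int.castRingHom (ZMod p))).Monic := fun i => (hfm i).map _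
  have hann : ∀ i, aeval (md p (M i)) ((f i).map (Int.castRingHom (ZMod p))) = 0 := by
    intro i
    have h3 := Polynomial.map_aeval_eq_aeval_map (S := Matrix (Fin d) (Fin d) ℤ)
      (T := ZMod p) (U := Matrix (Fin d) (Fin d) (ZMod p)) (φ := Int.castRingHom (ZMod p))
      (ψ := (Int.castRingHom (ZMod p)).mapMatrix (m := Fin d)) (by ext; simp) (f i) (M i)
    rw [hfM i, map_zero] at h3
    exact h3.symm
  have hp2 : 2 < p := by omega
  have hT : p - 1 = 2 * ((p - 1) / 2) := by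
    have hodd : p % 2 = 1 := (hp.eq_two_or_odd).resolve_left (by omega)
    omega
  have pg : ∀ i, md p (M i) ^ (p * ((p - 1) / 2)) = 1 := by
    intro i
    refine mat_pow_general p hp2 _ _ (hm' i) (s1 i) (s2 i) (c0 i) ?_ (hann i)
    rw [(hfm i).natDegree_map]
    have := hle i
    omega
  have ps : ∀ i, Diag (M i) → md p (M i) ^ ((p - 1) / 2) = 1 := by
    intro i hD
    refine mat_pow_sep p hp2 _ _ (hm' i) (s1 i) (s2 i) (c0 i) ?_ (hann i)
    refine hρ i hD p hp (hdv _ (hρ0 i) ?_)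
    have := hle i
    omega
  refine ⟨fun i => ?_, ?_⟩
  · have h1 : p * (p - 1) = p * ((p - 1) / 2) * 2 := by
      conv_lhs => rw [hT]
      ring
    rw [h1, pow_mul, pg i, one_pow]
  set q : Fin k → ℕ := fun i => if Diag (M i) then (p - 1) / 2 else p * ((p - 1) / 2) with hq
  have hunit : ∀ i, IsUnit (md p (M i)) := by
    intro i
    rw [Matrix.isUnit_iff_isUnit_det]
    have h1 : (md p (M i)).det = (((M i).det : ℤ) : ZMod p) := by
      have := RingHom.map_det (Int.castRingHom (ZMod p)) (M i)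
      rw [eq_intCast] at this
      rw [this]; rfl
    rw [h1]
    rw [isUnit_iff_ne_zero, Ne, ZMod.intCast_zmod_eq_zero_iff_dvd]
    refine hdv _ (hM i) ?_
    have := hle i
    omega
  have hq1 : 0 < (p - 1) / 2 := by omega
  obtain ⟨B', hB'⟩ : ∃ B' : Matrix (Fin d) (Fin m) (ZMod p), md p W * B' = 1 := by
    refine ⟨((N : ZMod p))⁻¹ • md p B, ?_⟩
    have h1 : md p W * md p B = (N : ZMod p) • 1 := by
      unfold md
      rw [← Matrix.map_mul, hB]
      ext i j
      rw [Matrix.map_apply, Matrix.smul_apply, Matrix.smul_apply, Matrix.one_apply,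
        Matrix.one_apply]
      by_cases h : i = j
      · rw [if_pos h, if_pos h]; simp
      · rw [if_neg h, if_neg h]; simp
    have hN0 : (N : ZMod p) ≠ 0 := by
      rw [Ne, ZMod.intCast_zmod_eq_zero_iff_dvd]
      exact hdv _ hN (by omega)
    rw [Matrix.mul_smul, h1, smul_smul, inv_mul_cancel₀ hN0, one_smul]
  have hcount := mat_local p hk (fun i => md p (M i)) hunit (fun i => weight (M i)) q (by
      intro i
      rw [hq]
      simp only
      unfold weight
      split_ifs with hD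
      · refine ⟨hq1, ?_⟩
        rw [pow_one]
        omega
      · refine ⟨Nat.mul_pos hp.pos hq1, ?_⟩
        calc 2 * (p * ((p - 1) / 2)) = p * (2 * ((p - 1) / 2)) := by ring
          _ = p * (p - 1) := by rw [← hT]
          _ ≤ p * p := Nat.mul_le_mul_left _ (Nat.sub_le _ _)
          _ = p ^ 2 := by ring) (by
      intro i
      rw [hq]
      simp only
      split_ifs with hD
      · exact ps i hD
      · exact pg i) hs (md p W) B' hB'
  have hcardeq : Nat.card {x : Fin d → ZMod p // GoodV M W p x} =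
      ((univ : Finset (Fin d → ZMod p)).filter (fun x => ¬ ∃ n : Fin k → ℕ,
        (md p W).mulVec ((mprod (fun i => md p (M i)) n).mulVec x) = 0)).card := by
    rw [Nat.card_eq_fintype_card, Fintype.card_subtype]
    congr 1
    apply Finset.filter_congr
    intro x _
    unfold GoodV
    constructor
    · rintro h ⟨n, hn⟩
      exact h n hn
    · intro h n hn
      exact h ⟨n, hn⟩
  have hsum := Finset.card_filter_add_card_filter_not (s := (univ : Finset (Fin d → ZMod p)))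
    (p := fun x => ∃ n : Fin k → ℕ,
      (md p W).mulVec ((mprod (fun i => md p (M i)) n).mulVec x) = 0)
  rw [Finset.card_univ, Fintype.card_fun, Fintype.card_fin, ZMod.card] at hsum
  rw [hcardeq, Fintype.card_fin]
  have h9 : p ^ d ≤ 2 * ((univ : Finset (Fin d → ZMod p)).filter (fun x => ¬ ∃ n : Fin k → ℕ,
        (md p W).mulVec ((mprod (fun i => md p (M i)) n).mulVec x) = 0)).card := by omega
  have h10 : ((p : ℝ) ^ d) ≤ 2 * (((univ : Finset (Fin d → ZMod p)).filter
      (fun x => ¬ ∃ n : Fin k → ℕ,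
        (md p W).mulVec ((mprod (fun i => md p (M i)) n).mulVec x) = 0)).card : ℝ) := by
    exact_mod_cast h9
  linarith

open Classical in
/-- Products of powers of matrices and subspaces: almost all vectors. -/
theorem mat_main {d k m : ℕ} (hk : 1 ≤ k) (M : Fin k → Matrix (Fin d) (Fin d) ℤ)
    (hM : ∀ i, (M i).det ≠ 0) (W : Matrix (Fin m) (Fin d) ℤ) (hW : LinearIndependent ℤ W.row)
    (hs : ∑ i, weight (M i) ≤ m) :
    ∃ A δ : ℝ, 0 < A ∧ 0 < δ ∧ ∃ H₀ : ℕ, ∀ H : ℕ, H₀ ≤ H → ∀ b : Fin d → ℤ,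
      ∃ E ⊆ box b H, (E.card : ℝ) ≤ (2 * (H : ℝ) + 1) ^ d * (H : ℝ) ^ (-δ) ∧
        ∀ x ∈ box b H, x ∉ E → ∃ p : ℕ, p.Prime ∧ (p : ℝ) ≤ Real.log H ^ A ∧
          (∀ i, (M i ^ (p * (p - 1))).map (Int.castRingHom (ZMod p)) = 1) ∧
          ∀ n : Fin k → ℕ, ∃ j, ¬ (p : ℤ) ∣ W.mulVec ((mprod M n).mulVec x) j := by
  obtain ⟨g, p₁, hg, hgood⟩ := local_mat hk M hM W hW hs
  obtain ⟨θ, hθ, hsup⟩ := many_split g hg p₁
  set A : ℝ := 2 / θ with hA
  have hA0 : 0 < A := by positivity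
  have hAθ : 1 < A * θ := by
    have : A * θ = 2 := by rw [hA]; field_simp
    rw [this]; norm_num
  obtain ⟨δ, hδ, H₀, hmain⟩ := h5 (Fin d)
    (fun p => (p.Prime ∧ p₁ ≤ p) ∧ (g.map (Int.castRingHom (ZMod p))).Splits)
    (fun p => {x | GoodV M W p x}) (1 / 2) θ A
    (by norm_num) hθ hA0 hAθ
    (fun p hp => ⟨hp.1.1, (hgood p hp.1.1 hp.1.2 hp.2).2⟩) hsup
  refine ⟨A, δ, hA0, hδ, H₀, fun H hH b => ?_⟩
  refine ⟨(box b H).filter (fun x => ¬ ∃ p : ℕ, p.Prime ∧ (p : ℝ) ≤ Real.log H ^ A ∧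
          (∀ i, (M i ^ (p * (p - 1))).map (Int.castRingHom (ZMod p)) = 1) ∧
          ∀ n : Fin k → ℕ, ∃ j, ¬ (p : ℤ) ∣ W.mulVec ((mprod M n).mulVec x) j),
    Finset.filter_subset _ _, ?_, ?_⟩
  · have h1 := hmain H hH b
    rw [Fintype.card_fin] at h1
    refine le_trans ?_ h1
    norm_cast
    refine card_le_sub _ _ (finite_sub _ _ _) (fun x : Fin d → ℤ => x) (fun _ _ h => h) ?_
    intro x h
    rw [Finset.mem_filter] at h
    obtain ⟨hx, hcert⟩ := h
    refine ⟨hx, ?_⟩
    intro p hp hpA hG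
    refine hcert ⟨p, hp.1.1, hpA, fun i => ?_, fun n => ?_⟩
    · have h2 := (hgood p hp.1.1 hp.1.2 hp.2).1 i
      have h3 := map_pow ((Int.castRingHom (ZMod p)).mapMatrix (m := Fin d)) (M i) (p * (p - 1))
      rw [RingHom.mapMatrix_apply, RingHom.mapMatrix_apply] at h3
      rw [h3]
      exact h2
    · by_contra hcon
      push Not at hcon
      refine hG n ?_
      rw [← md_mprod]
      funext j
      have h2 := hcon j
      rw [← ZMod.intCast_zmod_eq_zero_iff_dvd] at h2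
      rw [Pi.zero_apply, ← h2]
      have h3 := RingHom.map_mulVec (Int.castRingHom (ZMod p)) (mprod M n) x
      have h4 := RingHom.map_mulVec (Int.castRingHom (ZMod p)) W ((mprod M n).mulVec x) j
      rw [eq_intCast] at h4
      rw [h4]
      unfold md
      congr 2
      funext l
      have := h3 l
      simp only [Function.comp]
      rw [this]
      rfl
  · intro x hx hxE
    rw [Finset.mem_filter, not_and, not_not] at hxE
    exact hxE hx

/-! ### Linear recurrences of any order, simple or not -/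

/-- the matrix of a recurrence -/
def comp {d : ℕ} (c : Fin d → ℤ) : Matrix (Fin d) (Fin d) ℤ :=
  Matrix.of fun i j => if (i : ℕ) + 1 < d then (if (j : ℕ) = i + 1 then 1 else 0) else c (Fin.rev j)

theorem comp_window {d : ℕ} (c a : Fin d → ℤ) (u : ℕ → ℤ) (hu : IsSeq c a u) (n : ℕ) :
    (comp c).mulVec (fun j => u (n + j)) = fun j : Fin d => u (n + 1 + j) := by
  funext i
  rw [Matrix.mulVec, dotProduct]
  by_cases h : (i : ℕ) + 1 < d
  · rw [Finset.sum_eq_single (⟨i + 1, h⟩ : Fin d)]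
    · simp only [comp, Matrix.of_apply, if_pos h, if_true, one_mul]
      congr 1
      ring
    · intro j _ hj
      simp only [comp, Matrix.of_apply, if_pos h]
      rw [if_neg (fun h' => hj (Fin.ext h')), zero_mul]
    · intro h'; exact absurd (Finset.mem_univ _) h'
  · have h1 : n + 1 + (i : ℕ) = n + d := by
      have := i.2
      omega
    rw [h1, hu.2 n, ← sum_rev]
    refine Finset.sum_congr rfl fun j _ => ?_
    simp only [comp, Matrix.of_apply, if_neg h]
    rw [Fin.rev_rev, Fin.val_rev]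
    congr 2
    have := j.2
    omega

theorem comp_pow_window {d : ℕ} (c a : Fin d → ℤ) (u : ℕ → ℤ) (hu : IsSeq c a u) (n : ℕ) :
    (comp c ^ n).mulVec a = fun j : Fin d => u (n + j) := by
  induction n with
  | zero =>
    rw [pow_zero, Matrix.one_mulVec]
    funext j
    rw [zero_add, hu.1 j]
  | succ n ih =>
    rw [pow_succ', ← Matrix.mulVec_mulVec, ih, comp_window c a u hu n]

theorem comp_det {d : ℕ} (hd : 1 ≤ d) (c : Fin d → ℤ) (hc : c ⟨d - 1, by omega⟩ ≠ 0) :
    (comp c).det ≠ 0 := by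
  intro h
  obtain ⟨v, hv0, hv⟩ := Matrix.exists_mulVec_eq_zero_iff.2 h
  apply hv0
  have h1 : ∀ (j : ℕ) (hj : j + 1 < d), v ⟨j + 1, hj⟩ = 0 := by
    intro j hj
    have h2 := congrFun hv ⟨j, by omega⟩
    rw [Matrix.mulVec, dotProduct, Finset.sum_eq_single (⟨j + 1, hj⟩ : Fin d)] at h2
    · simp only [comp, Matrix.of_apply, if_pos hj, if_true, one_mul, Pi.zero_apply] at h2
      exact h2
    · intro l _ hl
      simp only [comp, Matrix.of_apply, if_pos hj]
      rw [if_neg (fun h' => hl (Fin.ext h')), zero_mul]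
    · intro h'; exact absurd (Finset.mem_univ _) h'
  have h3 := congrFun hv ⟨d - 1, by omega⟩
  rw [Matrix.mulVec, dotProduct, Finset.sum_eq_single (⟨0, by omega⟩ : Fin d)] at h3
  · have h4 : ¬ (((⟨d - 1, by omega⟩ : Fin d) : ℕ) + 1 < d) := by simp only; omega
    simp only [comp, Matrix.of_apply, if_neg h4, Pi.zero_apply] at h3
    have e : Fin.rev (⟨0, by omega⟩ : Fin d) = ⟨d - 1, by omega⟩ := by
      apply Fin.ext
      rw [Fin.val_rev]
    rw [e] at h3
    have h5 := (mul_eq_zero.1 h3).resolve_left hc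
    funext ⟨j, hj⟩
    rcases j with _ | j
    · exact h5
    · exact h1 j hj
  · rintro ⟨l, hl⟩ _ hl0
    rcases l with _ | l
    · exact absurd rfl hl0
    · rw [h1 l hl, mul_zero]
  · intro h'; exact absurd (Finset.mem_univ _) h'

theorem weight_le {d : ℕ} (M : Matrix (Fin d) (Fin d) ℤ) : weight M ≤ 2 := by
  unfold weight
  split_ifs <;> norm_num

theorem mprod_one {R : Type*} [CommRing R] {d : ℕ} (M : Fin 1 → Matrix (Fin d) (Fin d) R)
    (n : Fin 1 → ℕ) : mprod M n = M 0 ^ n 0 := by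
  unfold mprod
  simp

theorem rec_main {d m : ℕ} (hd : 1 ≤ d) (c : Fin d → ℤ) (hc : c ⟨d - 1, by omega⟩ ≠ 0)
    (L : Matrix (Fin m) (Fin d) ℤ) (hL : LinearIndependent ℤ L.row) (hm : 2 ≤ m) :
    ∃ A δ : ℝ, 0 < A ∧ 0 < δ ∧ ∃ H₀ : ℕ, ∀ H : ℕ, H₀ ≤ H → ∀ b : Fin d → ℤ,
      ∃ E ⊆ box b H, (E.card : ℝ) ≤ (2 * (H : ℝ) + 1) ^ d * (H : ℝ) ^ (-δ) ∧
        ∀ a ∈ box b H, a ∉ E → ∃ p : ℕ, p.Prime ∧ (p : ℝ) ≤ Real.log H ^ A ∧
          ∀ u, IsSeq c a u → (∀ n, (p : ℤ) ∣ u (n + p * (p - 1)) - u n) ∧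
            ∀ n, ∃ j, ¬ (p : ℤ) ∣ ∑ i, L j i * u (n + i) := by
  obtain ⟨A, δ, hA, hδ, H₀, hmain⟩ := mat_main (le_refl 1) (fun _ => comp c)
    (fun _ => comp_det hd c hc) L hL (by
      rw [Fin.sum_univ_one]
      exact (weight_le _).trans hm)
  refine ⟨A, δ, hA, hδ, H₀, fun H hH b => ?_⟩
  obtain ⟨E, hEb, hE, hEx⟩ := hmain H hH b
  refine ⟨E, hEb, hE, fun a ha haE => ?_⟩
  obtain ⟨p, hp, hpA, hper, hcert⟩ := hEx a ha haE
  refine ⟨p, hp, hpA, fun u hu => ⟨fun n => ?_, fun n => ?_⟩⟩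
  · have h1 := hper 0
    have h0 : 0 < d := by omega
    have h2 : u (n + p * (p - 1)) = ((comp c ^ (n + p * (p - 1))).mulVec a) ⟨0, h0⟩ := by
      rw [comp_pow_window c a u hu]; rfl
    have h3 : u n = ((comp c ^ n).mulVec a) ⟨0, h0⟩ := by
      rw [comp_pow_window c a u hu]; rfl
    rw [← ZMod.intCast_zmod_eq_zero_iff_dvd, Int.cast_sub, sub_eq_zero, h2, h3]
    have h4 := RingHom.map_mulVec (Int.castRingHom (ZMod p)) (comp c ^ (n + p * (p - 1))) a
      ⟨0, h0⟩
    have h5 := RingHom.map_mulVec (Int.castRingHom (ZMod p)) (comp c ^ n) a ⟨0, h0⟩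
    rw [eq_intCast] at h4 h5
    have h6 : (comp c ^ (n + p * (p - 1))).map (Int.castRingHom (ZMod p)) =
        (comp c ^ n).map (Int.castRingHom (ZMod p)) := by
      rw [pow_add, Matrix.map_mul, h1, Matrix.mul_one]
    rw [h4, h5, h6]
  · obtain ⟨j, hj⟩ := hcert (fun _ => n)
    refine ⟨j, ?_⟩
    rw [mprod_one, comp_pow_window c a u hu] at hj
    exact hj

end Pool.Agent.Run7.h644.SK
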