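import Pool.Agent.Run7.h644.SK.Global

set_option autoImplicit false

/-!
Products of powers of integer matrices and subspaces: prime certificates for almost all vectors.
-/

namespace Pool.Agent.Run7.h644.SK
open Pool.Agent.H884R2.Sko Pool.Agent.H684R3.Smo Pool.Agent.H692R2.USS Polynomial Finset

/-- the roots of a factor of a split polynomial are `2`-nd powers -/
theorem roots_pow (p : ℕ) [Fact p.Prime] (hp2 : 2 < p) (f : (ZMod p)[X]) (hf : f ≠ 0)
    (h2 : (expand (ZMod p) 2 f).Splits) (a : ZMod p) (ha : f.IsRoot a) (ha0 : a ≠ 0) :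
    a ^ ((p - 1) / 2) = 1 := by
  have hp : p.Prime := Fact.out
  have hT : p - 1 = 2 * ((p - 1) / 2) := by
    have hodd : p % 2 = 1 := (hp.eq_two_or_odd).resolve_left (by omega)
    omega
  have h4 : (X ^ 2 - C a : (ZMod p)[X]) ∣ expand (ZMod p) 2 f := by
    have h5 := map_dvd (expand (ZMod p) 2) (dvd_iff_isRoot.2 ha)
    rwa [map_sub, expand_X, expand_C] at h5
  have h6 : expand (ZMod p) 2 f ≠ 0 := by
    rw [Ne, expand_eq_zero (by omega)]; exact hf
  have h7 := h2.of_dvd h6 h4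
  obtain ⟨β, hβ⟩ := h7.exists_eval_eq_zero (by
    rw [degree_X_pow_sub_C (by omega)]
    exact_mod_cast (by omega : (2 : ℕ) ≠ 0))
  rw [eval_sub, eval_pow, eval_X, eval_C, sub_eq_zero] at hβ
  have hβ0 : β ≠ 0 := by
    rintro rfl
    rw [zero_pow (by omega)] at hβ
    exact ha0 hβ.symm
  rw [← hβ, ← pow_mul, ← hT]
  exact ZMod.pow_card_sub_one_eq_one hβ0

/-- a split polynomial whose roots are squares divides a power of `X ^ T - 1` -/
theorem dvd_pow_of_splits (p : ℕ) [Fact p.Prime] (hp2 : 2 < p) (f : (ZMod p)[X]) (hm : f.Monic)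
    (h1 : f.Splits) (h2 : (expand (ZMod p) 2 f).Splits) (h0 : f.coeff 0 ≠ 0) :
    f ∣ (X ^ ((p - 1) / 2) - 1) ^ f.natDegree := by
  have h3 := h1.eq_prod_roots_of_monic hm
  have hroot : ∀ a ∈ f.roots, (X - C a) ∣ (X ^ ((p - 1) / 2) - 1 : (ZMod p)[X]) := by
    intro a ha
    rw [mem_roots hm.ne_zero] at ha
    have ha0 : a ≠ 0 := by
      rintro rfl
      rw [IsRoot, ← coeff_zero_eq_eval_zero] at ha
      exact h0 ha
    rw [dvd_iff_isRoot]
    simp [roots_pow p hp2 f hm.ne_zero h2 a ha ha0]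
  have h4 := Multiset.prod_dvd_prod_of_dvd (S := f.roots) (fun a => X - C a)
    (fun _ => (X ^ ((p - 1) / 2) - 1 : (ZMod p)[X])) hroot
  rw [← h3, Multiset.map_const', Multiset.prod_replicate, ← h1.natDegree_eq_card_roots] at h4
  exact h4

theorem dvd_of_splits_sep (p : ℕ) [Fact p.Prime] (hp2 : 2 < p) (f : (ZMod p)[X]) (hm : f.Monic)
    (h1 : f.Splits) (h2 : (expand (ZMod p) 2 f).Splits) (h0 : f.coeff 0 ≠ 0)
    (hsep : f.Separable) : f ∣ X ^ ((p - 1) / 2) - 1 := by
  classical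
  set S : Finset (ZMod p) := f.roots.toFinset with hS
  have hnd : f.roots.Nodup := nodup_roots hsep
  have hval : S.val = f.roots := by
    rw [hS, Multiset.toFinset_val, hnd.dedup]
  have hpoly : poly S = f := by
    unfold poly
    rw [Finset.prod_eq_multiset_prod, hval]
    exact (h1.eq_prod_roots_of_monic hm).symm
  rw [← hpoly]
  apply poly_dvd
  intro a ha
  rw [hS, Multiset.mem_toFinset, mem_roots hm.ne_zero] at ha
  refine roots_pow p hp2 f hm.ne_zero h2 a ha ?_
  rintro rfl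
  rw [IsRoot, ← coeff_zero_eq_eval_zero] at ha
  exact h0 ha

/-- period of a matrix, general case -/
theorem mat_pow_general (p : ℕ) [Fact p.Prime] (hp2 : 2 < p) {d : ℕ}
    (M : Matrix (Fin d) (Fin d) (ZMod p)) (f : (ZMod p)[X]) (hm : f.Monic)
    (h1 : f.Splits) (h2 : (expand (ZMod p) 2 f).Splits) (h0 : f.coeff 0 ≠ 0)
    (hdeg : f.natDegree ≤ p) (hM : aeval M f = 0) : M ^ (p * ((p - 1) / 2)) = 1 := by
  have h3 : f ∣ (X ^ ((p - 1) / 2) - 1) ^ p :=
    (dvd_pow_of_splits p hp2 f hm h1 h2 h0).trans (pow_dvd_pow _ hdeg)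
  have h4 : (X ^ ((p - 1) / 2) - 1 : (ZMod p)[X]) ^ p = X ^ (p * ((p - 1) / 2)) - 1 := by
    rw [sub_pow_char, one_pow, ← pow_mul, mul_comm]
  rw [h4] at h3
  obtain ⟨q, hq⟩ := h3
  have h5 := congrArg (aeval M) hq
  rw [map_mul, hM, zero_mul, map_sub, map_pow, aeval_X, map_one, sub_eq_zero] at h5
  exact h5

/-- period of a matrix, diagonalizable case -/
theorem mat_pow_sep (p : ℕ) [Fact p.Prime] (hp2 : 2 < p) {d : ℕ}
    (M : Matrix (Fin d) (Fin d) (ZMod p)) (f : (ZMod p)[X]) (hm : f.Monic)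
    (h1 : f.Splits) (h2 : (expand (ZMod p) 2 f).Splits) (h0 : f.coeff 0 ≠ 0)
    (hsep : f.Separable) (hM : aeval M f = 0) : M ^ ((p - 1) / 2) = 1 := by
  obtain ⟨q, hq⟩ := dvd_of_splits_sep p hp2 f hm h1 h2 h0 hsep
  have h5 := congrArg (aeval M) hq
  rw [map_mul, hM, zero_mul, map_sub, map_pow, aeval_X, map_one, sub_eq_zero] at h5
  exact h5

/-- Vectors killed by a matrix with a right inverse. -/
theorem card_ker_le (p : ℕ) [Fact p.Prime] {d m : ℕ} (W : Matrix (Fin m) (Fin d) (ZMod p))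
    (B : Matrix (Fin d) (Fin m) (ZMod p)) (hWB : W * B = 1) :
    (univ.filter (fun x : Fin d → ZMod p => W.mulVec x = 0)).card * p ^ m ≤ p ^ d := by
  classical
  have h1 : ((univ.filter (fun x : Fin d → ZMod p => W.mulVec x = 0)) ×ˢ
      (univ : Finset (Fin m → ZMod p))).card ≤ (univ : Finset (Fin d → ZMod p)).card := by
    refine Finset.card_le_card_of_injOn (fun q => q.1 + B.mulVec q.2) (fun _ _ => mem_univ _) ?_
    rintro ⟨x, t⟩ hx ⟨x', t'⟩ hx' h
    simp only [Finset.coe_product, Set.mem_prod, Finset.mem_coe, Finset.mem_filter, mem_univ,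
      true_and, and_true] at hx hx'
    simp only at h
    have h2 := congrArg W.mulVec h
    rw [Matrix.mulVec_add, Matrix.mulVec_add, hx, hx', zero_add, zero_add, Matrix.mulVec_mulVec,
      Matrix.mulVec_mulVec, hWB, Matrix.one_mulVec, Matrix.one_mulVec] at h2
    subst h2
    rw [add_right_cancel h]
  rw [Finset.card_product, Finset.card_univ, Finset.card_univ, Fintype.card_fun,
    Fintype.card_fun, Fintype.card_fin, Fintype.card_fin, ZMod.card] at h1
  exact h1

/-- the product `M_1 ^ n_1 ⋯ M_k ^ n_k` -/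
def mprod {R : Type*} [CommRing R] {d k : ℕ} (M : Fin k → Matrix (Fin d) (Fin d) R)
    (n : Fin k → ℕ) : Matrix (Fin d) (Fin d) R :=
  (List.ofFn fun i => M i ^ n i).prod

theorem mprod_map {R S : Type*} [CommRing R] [CommRing S] (φ : R →+* S) {d k : ℕ}
    (M : Fin k → Matrix (Fin d) (Fin d) R) (n : Fin k → ℕ) :
    (mprod M n).map φ = mprod (fun i => (M i).map φ) n := by
  unfold mprod
  have h := map_list_prod (φ.mapMatrix (m := Fin d)) (List.ofFn fun i => M i ^ n i)
  rw [RingHom.mapMatrix_apply] at h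
  rw [h, List.map_ofFn]
  congr 2
  funext i
  exact map_pow (φ.mapMatrix (m := Fin d)) (M i) (n i)

theorem mprod_isUnit {R : Type*} [CommRing R] {d k : ℕ} (M : Fin k → Matrix (Fin d) (Fin d) R)
    (hM : ∀ i, IsUnit (M i)) (n : Fin k → ℕ) : IsUnit (mprod M n) := by
  unfold mprod
  apply List.prod_isUnit
  intro m hm
  rw [List.mem_ofFn] at hm
  obtain ⟨i, rfl⟩ := hm
  exact (hM i).pow _

open Classical in
/-- Local count. -/
theorem mat_local (p : ℕ) [Fact p.Prime] {d k m : ℕ} (hk : 1 ≤ k)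
    (M : Fin k → Matrix (Fin d) (Fin d) (ZMod p)) (hM : ∀ i, IsUnit (M i)) (s : Fin k → ℕ)
    (q : Fin k → ℕ) (hq : ∀ i, 0 < q i ∧ 2 * q i ≤ p ^ s i) (hper : ∀ i, M i ^ q i = 1)
    (hs : ∑ i, s i ≤ m)
    (W : Matrix (Fin m) (Fin d) (ZMod p)) (B : Matrix (Fin d) (Fin m) (ZMod p))
    (hWB : W * B = 1) :
    2 * (univ.filter (fun x : Fin d → ZMod p =>
      ∃ n : Fin k → ℕ, W.mulVec ((mprod M n).mulVec x) = 0)).card ≤ p ^ d := by
  have hp : p.Prime := Fact.out
  have hmod : ∀ n : Fin k → ℕ, mprod M n = mprod M (fun i => n i % q i) := by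
    intro n
    unfold mprod
    congr 2
    funext i
    conv_lhs => rw [← Nat.mod_add_div (n i) (q i), pow_add, pow_mul, hper i, one_pow, mul_one]
  have hsub : univ.filter (fun x : Fin d → ZMod p =>
      ∃ n : Fin k → ℕ, W.mulVec ((mprod M n).mulVec x) = 0) ⊆
      (Fintype.piFinset (fun i => Finset.range (q i))).biUnion (fun n =>
        univ.filter (fun x => (W * mprod M n).mulVec x = 0)) := by
    intro x hx
    rw [Finset.mem_filter] at hx
    obtain ⟨-, n, hn⟩ := hx
    rw [Finset.mem_biUnion]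
    refine ⟨fun i => n i % q i, ?_, ?_⟩
    · rw [Fintype.mem_piFinset]
      exact fun i => Finset.mem_range.2 (Nat.mod_lt _ (hq i).1)
    · rw [Finset.mem_filter]
      refine ⟨mem_univ _, ?_⟩
      rw [← hmod, ← Matrix.mulVec_mulVec]
      exact hn
  have hcard : (univ.filter (fun x : Fin d → ZMod p =>
      ∃ n : Fin k → ℕ, W.mulVec ((mprod M n).mulVec x) = 0)).card * p ^ m ≤
      (∏ i, q i) * p ^ d := by
    calc _ ≤ (∑ n ∈ Fintype.piFinset (fun i => Finset.range (q i)),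
          (univ.filter (fun x => (W * mprod M n).mulVec x = 0)).card) * p ^ m :=
          Nat.mul_le_mul_right _ ((Finset.card_le_card hsub).trans Finset.card_biUnion_le)
      _ = ∑ n ∈ Fintype.piFinset (fun i => Finset.range (q i)),
          (univ.filter (fun x => (W * mprod M n).mulVec x = 0)).card * p ^ m := Finset.sum_mul _ _ _
      _ ≤ ∑ n ∈ Fintype.piFinset (fun i => Finset.range (q i)), p ^ d := by
          refine Finset.sum_le_sum fun n _ => ?_
          obtain ⟨V, hV⟩ := (mprod_isUnit M hM n).exists_right_inv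
          refine card_ker_le p (W * mprod M n) (V * B) ?_
          rw [Matrix.mul_assoc, ← Matrix.mul_assoc (mprod M n) V B, hV, Matrix.one_mul, hWB]
      _ = (∏ i, q i) * p ^ d := by
          rw [Finset.sum_const, Fintype.card_piFinset, smul_eq_mul]
          simp
  set b := (univ.filter (fun x : Fin d → ZMod p =>
      ∃ n : Fin k → ℕ, W.mulVec ((mprod M n).mulVec x) = 0)).card with hb
  have hprod : 2 * ∏ i, q i ≤ p ^ m := by
    have h1 : ∏ i, (2 * q i) ≤ ∏ i, p ^ s i := Finset.prod_le_prod' fun i _ => (hq i).2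
    rw [Finset.prod_mul_distrib, Finset.prod_const, Finset.card_univ, Fintype.card_fin,
      Finset.prod_pow_eq_pow_sum] at h1
    have h2 : 2 ≤ 2 ^ k := by
      calc 2 = 2 ^ 1 := (pow_one 2).symm
        _ ≤ 2 ^ k := Nat.pow_le_pow_right (by norm_num) hk
    calc 2 * ∏ i, q i ≤ 2 ^ k * ∏ i, q i := Nat.mul_le_mul_right _ h2
      _ ≤ p ^ ∑ i, s i := h1
      _ ≤ p ^ m := Nat.pow_le_pow_right hp.pos hs
  have h3 : 2 * b * p ^ m ≤ p ^ d * p ^ m := by
    calc 2 * b * p ^ m = 2 * (b * p ^ m) := by ring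
      _ ≤ 2 * ((∏ i, q i) * p ^ d) := Nat.mul_le_mul_left _ hcard
      _ = (2 * ∏ i, q i) * p ^ d := by ring
      _ ≤ p ^ m * p ^ d := Nat.mul_le_mul_right _ hprod
      _ = p ^ d * p ^ m := by ring
  exact Nat.le_of_mul_le_mul_right h3 (pow_pos hp.pos _)

end Pool.Agent.Run7.h644.SK
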